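import Mathlib
import Pool.Agent.H720R3.Conc

set_option autoImplicit false

/-!
Concentration of the number of planted patterns when the patterns depend on the part outside all
blocks.
-/

namespace Pool.Agent.TH484.PH

open Finset Pool.Agent.H720R3

variable {E : Type} [Fintype E] [DecidableEq E]

lemma split (K : Finset E) (φ : Finset E → ℝ) :
    ∑ A, φ A = ∑ Z ∈ Kᶜ.powerset, ∑ U ∈ K.powerset, φ (Z ∪ U) := by
  rw [← sum_product' (Kᶜ.powerset) K.powerset (fun Z U => φ (Z ∪ U))]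
  refine sum_nbij' (fun A => (A \ K, A ∩ K)) (fun p => p.1 ∪ p.2) ?_ ?_ ?_ ?_ ?_
  · intro A _
    rw [mem_product, mem_powerset, mem_powerset]
    refine ⟨fun x hx => mem_compl.2 (mem_sdiff.1 hx).2, inter_subset_right⟩
  · intro p _
    exact mem_univ _
  · intro A _
    exact sdiff_union_inter A K
  · rintro ⟨Z, U⟩ hp
    rw [mem_product, mem_powerset, mem_powerset] at hp
    obtain ⟨h1, h2⟩ := hp
    have h3 : ∀ x ∈ Z, x ∉ K := fun x hx => mem_compl.1 (h1 hx)
    have h4 : ∀ x ∈ U, x ∈ K := fun x hx => h2 hx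
    ext x
    · simp only [mem_sdiff, mem_union]
      constructor
      · rintro ⟨h5 | h5, h6⟩
        · exact h5
        · exact absurd (h4 x h5) h6
      · intro h5
        exact ⟨Or.inl h5, h3 x h5⟩
    · simp only [mem_inter, mem_union]
      constructor
      · rintro ⟨h5 | h5, h6⟩
        · exact absurd h6 (h3 x h5)
        · exact h5
      · intro h5
        exact ⟨Or.inr h5, h4 x h5⟩
  · intro A _
    show φ A = φ (A \ K ∪ A ∩ K)
    rw [sdiff_union_inter]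

/-- second moment for fixed patterns -/
lemma var0 {M c : ℕ} (C P : Fin M → Finset E) (hP : ∀ j, P j ⊆ C j)
    (hc : ∀ j, (C j).card = c) (hdis : ∀ j k, j ≠ k → Disjoint (C j) (C k)) (μ T : ℝ)
    (hμ : μ = (M : ℝ) / 2 ^ c) (hT : T = 2 ^ Fintype.card E) :
    ∑ A : Finset E, (cnt C P A - μ) ^ 2 ≤ μ * T := by
  have hμ0 : 0 ≤ μ := by rw [hμ]; positivity
  have e1 : ∀ A : Finset E, (cnt C P A - μ) ^ 2
      = (cnt C P A) ^ 2 - 2 * μ * cnt C P A + μ ^ 2 := fun A => by ring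
  rw [sum_congr rfl fun A _ => e1 A, sum_add_distrib, sum_sub_distrib, ← mul_sum]
  rw [sum_cnt C P hP hc]
  have := sum_cnt_sq C P hP hc hdis
  rw [← hμ, ← hT] at this ⊢
  have e2 : ∑ _A : Finset E, μ ^ 2 = μ ^ 2 * T := by
    simp [hT, mul_comm]
  rw [e2]
  nlinarith

/-- two-sided concentration, patterns depending on the outside -/
lemma concZ {M c : ℕ} (C : Fin M → Finset E) (P : Finset E → Fin M → Finset E)
    (hP : ∀ Z j, P Z j ⊆ C j) (hc : ∀ j, (C j).card = c)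
    (hdis : ∀ j k, j ≠ k → Disjoint (C j) (C k)) (K : Finset E) (hK : ∀ j, C j ⊆ K)
    (μ T : ℝ) (hμ : μ = (M : ℝ) / 2 ^ c) (hT : T = 2 ^ Fintype.card E)
    (S : Finset (Finset E)) :
    |∑ A ∈ S, cnt C (P (A \ K)) A - μ * S.card| ≤ Real.sqrt μ * T := by
  have hμ0 : 0 ≤ μ := by rw [hμ]; positivity
  have hT0 : 0 < T := by rw [hT]; positivity
  -- the counts depend only on the traces on `K`
  have hdep : ∀ (Q : Fin M → Finset E) (Z Z' U : Finset E), Z ∈ Kᶜ.powerset → Z' ∈ Kᶜ.powerset →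
      cnt C Q (Z ∪ U) = cnt C Q (Z' ∪ U) := by
    intro Q Z Z' U hZ hZ'
    rw [mem_powerset] at hZ hZ'
    unfold cnt
    refine sum_congr rfl fun j _ => ?_
    have h1 : ∀ Z'' : Finset E, Z'' ⊆ Kᶜ → (Z'' ∪ U) ∩ C j = U ∩ C j := by
      intro Z'' h
      ext x
      simp only [mem_inter, mem_union]
      constructor
      · rintro ⟨h2 | h2, h3⟩
        · exact absurd (hK j h3) (mem_compl.1 (h h2))
        · exact ⟨h2, h3⟩
      · rintro ⟨h2, h3⟩
        exact ⟨Or.inr h2, h3⟩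
    rw [h1 Z hZ, h1 Z' hZ']
  obtain ⟨w, hw⟩ : ∃ w : ℝ, w = (Kᶜ.powerset.card : ℝ) := ⟨_, rfl⟩
  have hw0 : 0 < w := by
    rw [hw]
    exact_mod_cast card_pos.2 ⟨∅, empty_mem_powerset _⟩
  have h3 : ∑ A : Finset E, (cnt C (P (A \ K)) A - μ) ^ 2 ≤ μ * T := by
    rw [split K]
    have h4 : ∀ Z ∈ Kᶜ.powerset, ∑ U ∈ K.powerset,
        (cnt C (P ((Z ∪ U) \ K)) (Z ∪ U) - μ) ^ 2 ≤ μ * T / w := by
      intro Z hZ
      have h5 : ∑ A : Finset E, (cnt C (P Z) A - μ) ^ 2 ≤ μ * T :=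
        var0 C (P Z) (hP Z) hc hdis μ T hμ hT
      rw [split K] at h5
      have h6 : ∀ Z' ∈ Kᶜ.powerset, ∑ U ∈ K.powerset, (cnt C (P Z) (Z' ∪ U) - μ) ^ 2 =
          ∑ U ∈ K.powerset, (cnt C (P Z) (Z ∪ U) - μ) ^ 2 := by
        intro Z' hZ'
        refine sum_congr rfl fun U _ => ?_
        rw [hdep (P Z) Z' Z U hZ' hZ]
      rw [sum_congr rfl h6, sum_const, nsmul_eq_mul, ← hw] at h5
      have h7 : ∑ U ∈ K.powerset, (cnt C (P ((Z ∪ U) \ K)) (Z ∪ U) - μ) ^ 2 =
          ∑ U ∈ K.powerset, (cnt C (P Z) (Z ∪ U) - μ) ^ 2 := by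
        refine sum_congr rfl fun U hU => ?_
        have : (Z ∪ U) \ K = Z := by
          rw [mem_powerset] at hZ hU
          ext x
          simp only [mem_sdiff, mem_union]
          constructor
          · rintro ⟨h8 | h8, h9⟩
            · exact h8
            · exact absurd (hU h8) h9
          · intro h8
            exact ⟨Or.inl h8, mem_compl.1 (hZ h8)⟩
        rw [this]
      rw [h7, le_div_iff₀ hw0]
      linarith
    refine (sum_le_sum h4).trans (le_of_eq ?_)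
    rw [sum_const, nsmul_eq_mul, ← hw]
    field_simp
  have h1 : (∑ A ∈ S, (cnt C (P (A \ K)) A - μ)) ^ 2 ≤
      S.card * ∑ A ∈ S, (cnt C (P (A \ K)) A - μ) ^ 2 := sq_sum_le_card_mul_sum_sq
  have h2 : ∑ A ∈ S, (cnt C (P (A \ K)) A - μ) ^ 2 ≤
      ∑ A : Finset E, (cnt C (P (A \ K)) A - μ) ^ 2 :=
    sum_le_sum_of_subset_of_nonneg (subset_univ _) fun _ _ _ => sq_nonneg _
  have h4 : (S.card : ℝ) ≤ T := by
    have : S.card ≤ Fintype.card (Finset E) := card_le_univ S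
    rw [Fintype.card_finset] at this
    rw [hT]
    exact_mod_cast this
  have h5 : (∑ A ∈ S, (cnt C (P (A \ K)) A - μ)) ^ 2 ≤ T * (μ * T) := by
    calc _ ≤ S.card * ∑ A ∈ S, (cnt C (P (A \ K)) A - μ) ^ 2 := h1
      _ ≤ T * (μ * T) := mul_le_mul h4 (h2.trans h3) (sum_nonneg fun _ _ => sq_nonneg _) hT0.le
  have h6 : |∑ A ∈ S, (cnt C (P (A \ K)) A - μ)| ≤ Real.sqrt μ * T := by
    rw [← Real.sqrt_sq_eq_abs]
    have : Real.sqrt μ * T = Real.sqrt (T * (μ * T)) := by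
      rw [show T * (μ * T) = μ * T ^ 2 by ring, Real.sqrt_mul hμ0, Real.sqrt_sq hT0.le]
    rw [this]
    exact Real.sqrt_le_sqrt h5
  rw [sum_sub_distrib] at h6
  simp only [sum_const, nsmul_eq_mul] at h6
  rw [mul_comm μ]
  exact h6

/-- passage to the parts outside one block -/
lemma fibreZ (S : Finset (Finset E)) (C K : Finset E) (hCK : C ⊆ K) (P : Finset E → Finset E) :
    (S.filter (fun A => A ∩ C = P (A \ K))).card ≤
      (univ.filter (fun R : Finset E => R ∩ C = ∅ ∧ R ∪ P (R \ K) ∈ S)).card := by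
  have key : ∀ A : Finset E, A ∩ C = P (A \ K) → A \ C ∪ P ((A \ C) \ K) = A := by
    intro A hA
    have h1 : (A \ C) \ K = A \ K := by
      ext x
      simp only [mem_sdiff]
      constructor
      · rintro ⟨⟨h1, -⟩, h2⟩
        exact ⟨h1, h2⟩
      · rintro ⟨h1, h2⟩
        exact ⟨⟨h1, fun h => h2 (hCK h)⟩, h2⟩
    rw [h1, ← hA]
    exact sdiff_union_inter A C
  refine card_le_card_of_injOn (fun A => A \ C) ?_ ?_
  · intro A hA
    have hA' := mem_filter.1 (mem_coe.1 hA)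
    rw [mem_coe, mem_filter]
    refine ⟨mem_univ _, ?_, ?_⟩
    · ext x
      simp
    · show A \ C ∪ P ((A \ C) \ K) ∈ S
      rw [key A hA'.2]
      exact hA'.1
  · intro A hA B hB hAB
    have hA' := mem_filter.1 (mem_coe.1 hA)
    have hB' := mem_filter.1 (mem_coe.1 hB)
    have hAB' : A \ C = B \ C := hAB
    rw [← key A hA'.2, ← key B hB'.2, hAB']

end Pool.Agent.TH484.PH
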