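import Mathlib

set_option autoImplicit false

/-!
The average sensitivity of families of sets defined by real polynomials of bounded degree.
-/

namespace Pool.Agent.TH484.PH

open Finset

section

variable {E : Type} [Fintype E] [DecidableEq E]

open Classical in
/-- the number of sets `A`, `e ∉ A`, such that `f A` and `f (A ∪ {e})` are different -/
noncomputable def Inf (f : Finset E → Prop) (e : E) : ℕ :=
  (univ.filter (fun A : Finset E => e ∉ A ∧ ¬ (f A ↔ f (insert e A)))).card

open Classical in
/-- the values `1` and `-1` -/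
noncomputable def sg (f : Finset E → Prop) (A : Finset E) : ℝ := if f A then 1 else -1

/-- the coordinate -/
def xc (e : E) (A : Finset E) : ℝ := if e ∈ A then 1 else -1

lemma sg_sq (f : Finset E → Prop) (A : Finset E) : sg f A ^ 2 = 1 := by
  unfold sg
  split_ifs <;> norm_num

lemma xc_sq (e : E) (A : Finset E) : xc e A ^ 2 = 1 := by
  unfold xc
  split_ifs <;> norm_num

lemma pair (e : E) (φ : Finset E → ℝ) : ∑ A, φ A =
    ∑ A ∈ univ.filter (fun A : Finset E => e ∉ A), (φ A + φ (insert e A)) := by
  rw [sum_add_distrib, ← sum_filter_add_sum_filter_not univ (fun A : Finset E => e ∉ A) φ]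
  congr 1
  refine sum_nbij' (fun A => A.erase e) (fun A => insert e A) ?_ ?_ ?_ ?_ ?_
  · intro A _
    rw [mem_filter]
    exact ⟨mem_univ _, notMem_erase e A⟩
  · intro A _
    rw [mem_filter, not_not]
    exact ⟨mem_univ _, mem_insert_self e A⟩
  · intro A hA
    rw [mem_filter, not_not] at hA
    exact insert_erase hA.2
  · intro A hA
    rw [mem_filter] at hA
    exact erase_insert hA.2
  · intro A hA
    rw [mem_filter, not_not] at hA
    rw [insert_erase hA.2]

/-- complexity of the signs of the discrete derivatives -/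
def Cx : ℕ → (Finset E → Prop) → Prop
  | 0, f => ∀ A B, f A ↔ f B
  | k + 1, f => ∀ e, ∃ g : Finset E → Prop, Cx k g ∧ (∀ A, g (insert e A) ↔ g A) ∧
      ∀ A, e ∉ A → ¬ (f A ↔ f (insert e A)) → (f (insert e A) ↔ g A)

lemma key1 (f g : Finset E → Prop) (e : E) (hg : ∀ A, g (insert e A) ↔ g A)
    (hf : ∀ A, e ∉ A → ¬ (f A ↔ f (insert e A)) → (f (insert e A) ↔ g A)) :
    ∑ A, sg f A * (xc e A * sg g A) = 2 * (Inf f e : ℝ) := by
  classical
  rw [pair e]
  have h1 : ∀ A ∈ univ.filter (fun A : Finset E => e ∉ A),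
      (sg f A * (xc e A * sg g A) + sg f (insert e A) * (xc e (insert e A) * sg g (insert e A))) =
      if ¬ (f A ↔ f (insert e A)) then 2 else 0 := by
    intro A hA
    rw [mem_filter] at hA
    have h2 : xc e A = -1 := by unfold xc; rw [if_neg hA.2]
    have h3 : xc e (insert e A) = 1 := by unfold xc; rw [if_pos (mem_insert_self e A)]
    have h4 : sg g (insert e A) = sg g A := by
      unfold sg
      simp only [hg A]
    rw [h2, h3, h4]
    have h5 := hf A hA.2
    unfold sg
    by_cases a : f A <;> by_cases b : f (insert e A) <;> by_cases c : g A <;>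
      simp [a, b, c] at h5 ⊢ <;> norm_num
  rw [sum_congr rfl h1, ← sum_filter, sum_const, filter_filter, nsmul_eq_mul, mul_comm]
  unfold Inf
  congr 2

lemma key2 (g g' : Finset E → Prop) (e e' : E) (hne : e ≠ e') (hg : ∀ A, g' (insert e' A) ↔ g' A) :
    ∑ A, (xc e A * sg g A) * (xc e' A * sg g' A) ≤ 2 * (Inf g e' : ℝ) := by
  classical
  rw [pair e']
  have h1 : ∀ A ∈ univ.filter (fun A : Finset E => e' ∉ A),
      ((xc e A * sg g A) * (xc e' A * sg g' A) + (xc e (insert e' A) * sg g (insert e' A)) *
        (xc e' (insert e' A) * sg g' (insert e' A))) ≤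
      if ¬ (g A ↔ g (insert e' A)) then 2 else 0 := by
    intro A hA
    rw [mem_filter] at hA
    have h2 : xc e' A = -1 := by unfold xc; rw [if_neg hA.2]
    have h3 : xc e' (insert e' A) = 1 := by unfold xc; rw [if_pos (mem_insert_self e' A)]
    have h4 : sg g' (insert e' A) = sg g' A := by
      unfold sg
      simp only [hg A]
    have h5 : xc e (insert e' A) = xc e A := by
      unfold xc
      simp only [mem_insert, hne, false_or]
    rw [h2, h3, h4, h5]
    have h6 : xc e A = 1 ∨ xc e A = -1 := by
      unfold xc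
      split_ifs <;> simp
    have h7 : sg g' A = 1 ∨ sg g' A = -1 := by
      unfold sg
      split_ifs <;> simp
    rcases h6 with h6 | h6 <;> rcases h7 with h7 | h7 <;> rw [h6, h7] <;> unfold sg <;>
      by_cases a : g A <;> by_cases b : g (insert e' A) <;> simp [a, b] <;> norm_num
  refine (sum_le_sum h1).trans (le_of_eq ?_)
  rw [← sum_filter, sum_const, filter_filter, nsmul_eq_mul, mul_comm]
  unfold Inf
  congr 2

end

theorem infl (k : ℕ) : ∀ η : ℝ, 0 < η → ∃ n₀ : ℕ, ∀ (E : Type) [Fintype E] [DecidableEq E]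
    (K : Finset E) (f : Finset E → Prop), n₀ ≤ K.card → Cx k f →
      ∑ e ∈ K, (Inf f e : ℝ) ≤ η * K.card * 2 ^ Fintype.card E := by
  induction k with
  | zero =>
    intro η hη
    refine ⟨0, fun E _ _ K f _ hf => ?_⟩
    classical
    have h1 : ∀ e ∈ K, (Inf f e : ℝ) = 0 := by
      intro e _
      have : Inf f e = 0 := by
        unfold Inf
        rw [card_eq_zero]
        ext A
        rw [mem_filter]
        constructor
        · intro h
          exact absurd (hf _ _) h.2.2
        · intro h
          exact absurd h (notMem_empty A)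
      rw [this, Nat.cast_zero]
    rw [sum_congr rfl h1, sum_const_zero]
    positivity
  | succ k ih =>
    intro η hη
    obtain ⟨n1, h1⟩ := ih (η ^ 2) (by positivity)
    obtain ⟨n2, h2⟩ := exists_nat_gt (1 / (2 * η ^ 2))
    refine ⟨max n1 n2, fun E _ _ K f hK hf => ?_⟩
    classical
    choose g hg1 hg2 hg3 using hf
    obtain ⟨n, hn⟩ : ∃ n : ℝ, n = K.card := ⟨_, rfl⟩
    obtain ⟨W, hW⟩ : ∃ W : ℝ, W = 2 ^ Fintype.card E := ⟨_, rfl⟩
    obtain ⟨S, hS⟩ : ∃ S : ℝ, S = ∑ e ∈ K, (Inf f e : ℝ) := ⟨_, rfl⟩
    have hW0 : 0 < W := by rw [hW]; positivity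
    have hn2 : 1 / (2 * η ^ 2) < n := by
      have : (n2 : ℝ) ≤ n := by rw [hn]; exact_mod_cast (le_max_right _ _).trans hK
      linarith
    have hn0 : 0 < n := lt_trans (by positivity) hn2
    have hn3 : 1 ≤ 2 * η ^ 2 * n := by
      rw [div_lt_iff₀ (by positivity)] at hn2
      linarith
    have hcardW : ∑ _A : Finset E, (1 : ℝ) = W := by
      rw [sum_const, card_univ, Fintype.card_finset, nsmul_eq_mul, mul_one, hW]
      push_cast
      rfl
    -- first identity
    have e1 : 2 * S = ∑ A : Finset E, sg f A * ∑ e ∈ K, xc e A * sg (g e) A := by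
      have h3 : ∑ A : Finset E, sg f A * ∑ e ∈ K, xc e A * sg (g e) A =
          ∑ e ∈ K, ∑ A, sg f A * (xc e A * sg (g e) A) := by
        rw [sum_comm]
        refine sum_congr rfl fun A _ => ?_
        rw [mul_sum]
      rw [h3, hS, mul_sum]
      refine sum_congr rfl fun e _ => ?_
      rw [key1 f (g e) e (hg2 e) (hg3 e)]
    -- second moment
    have e2 : ∑ A : Finset E, (∑ e ∈ K, xc e A * sg (g e) A) ^ 2 ≤ n * W + 2 * (n * (η ^ 2 * n * W)) := by
      have h3 : ∑ A : Finset E, (∑ e ∈ K, xc e A * sg (g e) A) ^ 2 =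
          ∑ e ∈ K, ∑ e' ∈ K, ∑ A, (xc e A * sg (g e) A) * (xc e' A * sg (g e') A) := by
        have h4 : ∀ A : Finset E, (∑ e ∈ K, xc e A * sg (g e) A) ^ 2 =
            ∑ e ∈ K, ∑ e' ∈ K, (xc e A * sg (g e) A) * (xc e' A * sg (g e') A) := by
          intro A
          rw [sq, sum_mul_sum]
        rw [sum_congr rfl fun A _ => h4 A, sum_comm]
        refine sum_congr rfl fun e _ => ?_
        rw [sum_comm]
      rw [h3]
      have h5 : ∀ e ∈ K, ∑ e' ∈ K, ∑ A, (xc e A * sg (g e) A) * (xc e' A * sg (g e') A) ≤
          W + 2 * (η ^ 2 * n * W) := by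
        intro e he
        have h6 : ∀ e' ∈ K, ∑ A, (xc e A * sg (g e) A) * (xc e' A * sg (g e') A) ≤
            (if e' = e then W else 0) + 2 * (Inf (g e) e' : ℝ) := by
          intro e' _
          by_cases h : e' = e
          · rw [if_pos h, h]
            have h7 : ∑ A, (xc e A * sg (g e) A) * (xc e A * sg (g e) A) = W := by
              rw [← hcardW]
              refine sum_congr rfl fun A _ => ?_
              have a := xc_sq e A
              have b := sg_sq (g e) A
              calc (xc e A * sg (g e) A) * (xc e A * sg (g e) A) = xc e A ^ 2 * sg (g e) A ^ 2 := by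
                    ring
                _ = 1 := by rw [a, b]; norm_num
            rw [h7]
            have : (0 : ℝ) ≤ (Inf (g e) e : ℝ) := Nat.cast_nonneg _
            linarith
          · rw [if_neg h, zero_add]
            exact key2 (g e) (g e') e e' (Ne.symm h) (hg2 e')
        refine (sum_le_sum h6).trans ?_
        rw [sum_add_distrib, sum_ite_eq' K e, if_pos he, ← mul_sum]
        have h8 := h1 E K (g e) ((le_max_left _ _).trans hK) (hg1 e)
        rw [← hn, ← hW] at h8
        linarith
      refine (sum_le_sum h5).trans (le_of_eq ?_)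
      rw [sum_const, nsmul_eq_mul, ← hn]
      ring
    have e3 : ∑ A : Finset E, sg f A ^ 2 = W := by
      rw [← hcardW]
      exact sum_congr rfl fun A _ => sg_sq f A
    have e4 : (2 * S) ^ 2 ≤ W * (n * W + 2 * (n * (η ^ 2 * n * W))) := by
      rw [e1]
      refine (sum_mul_sq_le_sq_mul_sq univ (sg f) _).trans ?_
      rw [e3]
      exact mul_le_mul_of_nonneg_left e2 hW0.le
    rw [← hS, ← hn, ← hW]
    by_contra hcon
    push Not at hcon
    have e5 : (η * n * W) * (η * n * W) < S * S :=
      mul_self_lt_mul_self (by positivity) hcon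
    have e6 : n * W * W ≤ 2 * η ^ 2 * n * (n * W * W) := by
      have : 0 ≤ n * W * W := by positivity
      nlinarith
    nlinarith

end Pool.Agent.TH484.PH
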