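import Mathlib
import Pool.Agent.TH484.PH.Infl

set_option autoImplicit false

/-!
Functions of sets with real values whose differences of a given order have constant sign.
-/

namespace Pool.Agent.TH484.PH

open Finset

/-- the difference of `h` in direction `e` -/
def diff {E : Type} [DecidableEq E] (e : E) (h : Finset E → ℝ) (A : Finset E) : ℝ :=
  h (insert e A) - h (A.erase e)

/-- all differences of order `k` of `h` have constant sign -/
def Reg {E : Type} [DecidableEq E] : ℕ → (Finset E → ℝ) → Prop
  | 0, h => (∀ A, 0 ≤ h A) ∨ (∀ A, h A ≤ 0)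
  | k + 1, h => ∀ e, Reg k (diff e h)

lemma cx_of_reg {E : Type} [Fintype E] [DecidableEq E] (k : ℕ) :
    ∀ h : Finset E → ℝ, Reg (k + 1) h → Cx (k + 1) (fun A => 0 < h A) := by
  induction k with
  | zero =>
    intro h hh e
    rcases hh e with h1 | h1
    · refine ⟨fun _ => True, fun _ _ => Iff.rfl, fun _ => Iff.rfl, fun A hA hne => ?_⟩
      have h2 := h1 A
      unfold diff at h2
      rw [erase_eq_of_notMem hA] at h2
      rw [iff_true]
      by_contra h3
      apply hne
      constructor
      · intro h4
        exact absurd (show 0 < h (insert e A) by linarith) h3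
      · intro h4
        exact absurd h4 h3
    · refine ⟨fun _ => False, fun _ _ => Iff.rfl, fun _ => Iff.rfl, fun A hA hne => ?_⟩
      have h2 := h1 A
      unfold diff at h2
      rw [erase_eq_of_notMem hA] at h2
      rw [iff_false]
      intro h3
      apply hne
      constructor
      · intro _
        exact h3
      · intro _
        have : 0 < h (insert e A) := h3
        show 0 < h A
        linarith
  | succ k ih =>
    intro h hh e
    refine ⟨fun A => 0 < diff e h A, ih _ (hh e), fun A => ?_, fun A hA hne => ?_⟩
    · have : diff e h (insert e A) = diff e h A := by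
        unfold diff
        rw [insert_eq_of_mem (mem_insert_self e A)]
        by_cases hA : e ∈ A
        · rw [insert_eq_of_mem hA]
        · rw [erase_insert hA, erase_eq_of_notMem hA]
      simp only [this]
    · show 0 < h (insert e A) ↔ 0 < diff e h A
      unfold diff
      rw [erase_eq_of_notMem hA]
      by_cases h1 : 0 < h A
      · have h2 : ¬ 0 < h (insert e A) := fun h3 => hne ⟨fun _ => h3, fun _ => h1⟩
        constructor
        · intro h3
          exact absurd h3 h2
        · intro h3
          linarith
      · have h2 : 0 < h (insert e A) := by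
          by_contra h3
          exact hne ⟨fun h4 => absurd h4 h1, fun h4 => absurd h4 h3⟩
        constructor
        · intro _
          linarith
        · intro _
          exact h2

lemma inflAll (k : ℕ) (η : ℝ) (hη : 0 < η) : ∃ n₀ : ℕ, ∀ j ≤ k,
    ∀ (E : Type) [Fintype E] [DecidableEq E] (K : Finset E) (f : Finset E → Prop),
      n₀ ≤ K.card → Cx j f → ∑ e ∈ K, (Inf f e : ℝ) ≤ η * K.card * 2 ^ Fintype.card E := by
  choose n hn using fun j : ℕ => infl j η hη
  refine ⟨(range (k + 1)).sup n, fun j hj E _ _ K f hK hf => hn j E K f ?_ hf⟩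
  exact (le_sup (f := n) (mem_range.2 (Nat.lt_succ_of_le hj))).trans hK

/-- a change along an increasing path -/
lemma path {E : Type} [DecidableEq E] (f : Finset E → Prop) (A B : Finset E) :
    ¬ (f A ↔ f (A ∪ B)) → ∃ e ∈ B, ∃ X, A ⊆ X ∧ X ⊆ A ∪ B ∧ e ∉ X ∧
      ¬ (f X ↔ f (insert e X)) := by
  induction B using Finset.induction_on with
  | empty =>
    intro h
    rw [union_empty] at h
    exact absurd Iff.rfl h
  | insert b B hb ih =>
    intro h
    by_cases h1 : f A ↔ f (A ∪ B)
    · rw [h1, union_insert] at h
      have h2 : b ∉ A ∪ B := by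
        intro h3
        rw [insert_eq_of_mem h3] at h
        exact h Iff.rfl
      refine ⟨b, mem_insert_self b B, A ∪ B, subset_union_left, ?_, h2, h⟩
      exact union_subset_union_right (subset_insert b B)
    · obtain ⟨e, he, X, h2, h3, h4, h5⟩ := ih h1
      exact ⟨e, mem_insert_of_mem he, X, h2,
        h3.trans (union_subset_union_right (subset_insert b B)), h4, h5⟩

/-- the number of sets which avoid `C` and have a change of `f` inside `C` above them -/
lemma count {E : Type} [Fintype E] [DecidableEq E] (f : Finset E → Prop) (C : Finset E)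
    (Q : Finset (Finset E)) (hQ : ∀ A ∈ Q, A ∩ C = ∅ ∧ ∃ B ⊆ C, ¬ (f A ↔ f (A ∪ B))) :
    Q.card ≤ ∑ e ∈ C, Inf f e := by
  classical
  have h1 : Q ⊆ C.biUnion (fun e => (univ.filter (fun X : Finset E =>
      e ∉ X ∧ ¬ (f X ↔ f (insert e X)))).image (fun X => X \ C)) := by
    intro A hA
    obtain ⟨h2, B, hB, h3⟩ := hQ A hA
    obtain ⟨e, he, X, h4, h5, h6, h7⟩ := path f A B h3
    rw [mem_biUnion]
    refine ⟨e, hB he, ?_⟩
    rw [mem_image]
    refine ⟨X, mem_filter.2 ⟨mem_univ _, h6, h7⟩, ?_⟩
    ext x
    rw [mem_sdiff]
    constructor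
    · rintro ⟨h8, h9⟩
      exact (mem_union.1 (h5 h8)).resolve_right fun h10 => h9 (hB h10)
    · intro h8
      refine ⟨h4 h8, fun h9 => ?_⟩
      have : x ∈ A ∩ C := mem_inter.2 ⟨h8, h9⟩
      rw [h2] at this
      exact notMem_empty x this
  refine (card_le_card h1).trans (card_biUnion_le.trans (sum_le_sum fun e _ => ?_))
  refine card_image_le.trans (le_of_eq ?_)
  unfold Inf
  congr 1

end Pool.Agent.TH484.PH
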