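import Mathlib
import Pool.Agent.H720R3.Blocks
import Pool.Agent.TH484.PH.Reg

set_option autoImplicit false

/-!
Families of subsets of `[N]^d` defined by signs of real functions with differences of constant sign
and by polynomials with values in a finite abelian group.
-/

namespace Pool.Agent.TH484.PH

open Finset Pool.Agent.H720R3

/-- the sum of `c T` over the subsets `T ⊆ A` with at most `D` elements -/
def poly {E G : Type} [AddCommGroup G] (D : ℕ) (c : Finset E → G) (A : Finset E) : G :=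
  ∑ T ∈ A.powerset.filter (fun T => T.card ≤ D), c T

/-- the return property of a block -/
lemma ret (d : ℕ) (hd : 1 ≤ d) (D : ℕ) (G : Type) [AddCommGroup G] [Fintype G] :
    ∃ r : ℕ, 1 ≤ r ∧ ∀ (N : ℕ) (c : Finset (Fin d → Fin N) → G) (T : Finset (Fin N))
      (A : Finset (Fin d → Fin N)), r ≤ T.card → A ∩ pw d T = ∅ →
      ∃ γ ⊆ T, γ.Nonempty ∧ poly D c (A ∪ pw d γ) = poly D c A := by
  classical
  obtain ⟨r, hr⟩ := exists_return (d * D) G
  refine ⟨r + 1, by omega, fun N c T A hT hA => ?_⟩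
  have hpw0 : pw d (∅ : Finset (Fin N)) = ∅ := by
    ext x
    simp only [mem_pw, notMem_empty, iff_false]
    intro h
    exact h ⟨0, hd⟩
  obtain ⟨γ, hγ, hne, he⟩ := hr (Fin N) T (fun γ => poly D c (A ∪ pw d γ))
    (by omega) (by
      refine deg_of_sum (univ.filter fun X : Finset (Fin d → Fin N) => X.card ≤ D)
        (fun X => (X \ A).biUnion fun x => univ.image x) c ?_ _ _ ?_
      · intro X hX
        rw [mem_filter] at hX
        calc ((X \ A).biUnion fun x => univ.image x).card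
            ≤ ∑ x ∈ X \ A, (univ.image x).card := card_biUnion_le
          _ ≤ ∑ _x ∈ X \ A, d := sum_le_sum fun x _ => by
              calc (univ.image x).card ≤ (univ : Finset (Fin d)).card := card_image_le
                _ = d := by simp
          _ = (X \ A).card * d := by rw [sum_const, smul_eq_mul]
          _ ≤ D * d := Nat.mul_le_mul_right d ((card_le_card sdiff_subset).trans hX.2)
          _ = d * D := mul_comm _ _
      · intro γ _
        show poly D c (A ∪ pw d γ) = _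
        rw [poly, ← sum_filter]
        refine sum_congr ?_ fun _ _ => rfl
        ext X
        rw [mem_filter, mem_filter, mem_filter, mem_powerset]
        have hiff : X ⊆ A ∪ pw d γ ↔ (X \ A).biUnion (fun x => univ.image x) ⊆ γ := by
          constructor
          · intro h y hy
            rw [mem_biUnion] at hy
            obtain ⟨x, hx, hy⟩ := hy
            rw [mem_sdiff] at hx
            rw [mem_image] at hy
            obtain ⟨i, -, rfl⟩ := hy
            have := (mem_union.1 (h hx.1)).resolve_left hx.2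
            rw [mem_pw] at this
            exact this i
          · intro h x hx
            by_cases hxA : x ∈ A
            · exact mem_union_left _ hxA
            · refine mem_union_right _ (mem_pw.2 fun i => h ?_)
              rw [mem_biUnion]
              exact ⟨x, mem_sdiff.2 ⟨hx, hxA⟩, mem_image_of_mem _ (mem_univ i)⟩
        rw [hiff]
        simp only [mem_univ, true_and]
        exact and_comm)
  refine ⟨γ, hγ, hne, ?_⟩
  simpa [hpw0] using he

theorem main (d : ℕ) (hd : 1 ≤ d) (D k r : ℕ) (G : Type) [AddCommGroup G] [Finite G] (δ : ℝ)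
    (hδ : 0 < δ) :
    ∃ ε : ℝ, 0 < ε ∧ ∃ N₀ : ℕ, ∀ N : ℕ, N₀ ≤ N →
      ∀ (h : Fin r → Finset (Fin d → Fin N) → ℝ) (c : Finset (Fin d → Fin N) → G)
        (R : (Fin r → Prop) → G → Prop) (F S : Finset (Finset (Fin d → Fin N))),
        (∀ i, ∃ j, 1 ≤ j ∧ j ≤ k ∧ Reg j (h i)) →
        (∀ A, A ∈ F ↔ R (fun i => 0 < h i A) (poly D c A)) → δ * (2 : ℝ) ^ (N ^ d) ≤ F.card →
          ((F \ S).card : ℝ) ≤ ε * (2 : ℝ) ^ (N ^ d) →
            ∃ A ∈ S, ∃ γ : Finset (Fin N), γ.Nonempty ∧ Disjoint A (pw d γ) ∧ A ∪ pw d γ ∈ S := by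
  classical
  have := Fintype.ofFinite G
  obtain ⟨n, hn1, hret⟩ := ret d hd D G
  obtain ⟨c₀, hc₀⟩ : ∃ c₀ : ℕ, c₀ = n ^ d := ⟨_, rfl⟩
  have hc1 : 1 ≤ c₀ := by rw [hc₀]; exact Nat.one_le_pow _ _ hn1
  obtain ⟨η, hη⟩ : ∃ η : ℝ, η = δ / (4 * (r + 1) * c₀ * 2 ^ c₀) := ⟨_, rfl⟩
  have hcR : (0 : ℝ) < c₀ := by exact_mod_cast hc1
  have hη0 : 0 < η := by rw [hη]; positivity
  obtain ⟨n₀, hn₀⟩ := inflAll k η hη0
  obtain ⟨M1, hM1⟩ := exists_nat_gt ((4 / δ ^ 2) * 2 ^ c₀)
  obtain ⟨M, hMdef⟩ : ∃ M : ℕ, M = max M1 n₀ := ⟨_, rfl⟩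
  have hM : (4 / δ ^ 2) * 2 ^ c₀ < (M : ℝ) := by
    have : (M1 : ℝ) ≤ M := by rw [hMdef]; exact_mod_cast le_max_left _ _
    linarith
  have hMn : n₀ ≤ M := by rw [hMdef]; exact le_max_right _ _
  refine ⟨δ / (8 * 2 ^ c₀), by positivity, M * n, fun N hN h c R F S hreg hF hFc hFS => ?_⟩
  by_contra hgood
  obtain ⟨μ, hμ⟩ : ∃ μ : ℝ, μ = (M : ℝ) / 2 ^ c₀ := ⟨_, rfl⟩
  have hμ1 : 4 / δ ^ 2 < μ := by rw [hμ, lt_div_iff₀ (by positivity)]; exact hM
  have hμ0 : 0 < μ := lt_trans (by positivity) hμ1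
  obtain ⟨W, hW⟩ : ∃ W : ℝ, W = 2 ^ Fintype.card (Fin d → Fin N) := ⟨_, rfl⟩
  have hWe : W = (2 : ℝ) ^ (N ^ d) := by rw [hW]; simp
  have hW0 : 0 < W := by rw [hW]; positivity
  rw [← hWe] at hFc hFS
  have hlow : μ * F.card - Real.sqrt μ * W ≤ ∑ A ∈ F, cnt (C d hN) (fun _ => ∅) A := by
    have := conc (c := c₀) (C d hN) (fun _ => ∅) (fun j => empty_subset _)
      (fun j => by rw [card_C, hc₀]) (C_disj hd hN) F
    rw [← hμ, ← hW] at this
    exact this
  have hret' : ∀ (j : Fin M) (A : Finset (Fin d → Fin N)), A ∩ C d hN j = ∅ →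
      ∃ γ ⊆ T hN j, γ.Nonempty ∧ poly D c (A ∪ pw d γ) = poly D c A := by
    intro j A hA
    exact hret N c (T hN j) A (by rw [card_T]) hA
  choose! γ hγ hγne hγe using hret'
  have hsubC : ∀ (j : Fin M) (A : Finset (Fin d → Fin N)), A ∩ C d hN j = ∅ →
      pw d (γ j A) ⊆ C d hN j := by
    intro j A hA x hx
    rw [C, mem_pw]
    rw [mem_pw] at hx
    exact fun i => hγ j A hA (hx i)
  -- the two kinds of sets
  obtain ⟨Q, hQ⟩ : ∃ Q : Fin M → Fin r → Finset (Finset (Fin d → Fin N)), Q = fun j i =>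
      univ.filter (fun A => A ∩ C d hN j = ∅ ∧ ¬ (0 < h i A ↔ 0 < h i (A ∪ pw d (γ j A)))) :=
    ⟨_, rfl⟩
  have hQc : ∀ j i, (Q j i).card ≤ ∑ e ∈ C d hN j, Inf (fun A => 0 < h i A) e := by
    intro j i
    refine count (fun A => 0 < h i A) (C d hN j) (Q j i) fun A hA => ?_
    rw [hQ, mem_filter] at hA
    exact ⟨hA.2.1, pw d (γ j A), hsubC j A hA.2.1, hA.2.2⟩
  -- pairs
  have hpair : ∀ (j : Fin M), ∀ A ∈ F, A ∩ C d hN j = ∅ →
      A ∈ F \ S ∨ A ∪ pw d (γ j A) ∈ F \ S ∨ ∃ i, A ∈ Q j i := by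
    intro j A hA hAj
    by_contra hcon
    rw [not_or, not_or, mem_sdiff, mem_sdiff, not_and, not_not, not_and, not_not, not_exists] at hcon
    have h1 := hcon.1 hA
    have h0 : ∀ i, (0 < h i A ↔ 0 < h i (A ∪ pw d (γ j A))) := by
      intro i
      by_contra h4
      apply hcon.2.2 i
      rw [hQ, mem_filter]
      exact ⟨mem_univ _, hAj, h4⟩
    have h2 : A ∪ pw d (γ j A) ∈ F := by
      rw [hF, hγe j A hAj]
      have h5 : (fun i => 0 < h i (A ∪ pw d (γ j A))) = fun i => 0 < h i A :=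
        funext fun i => propext (h0 i).symm
      rw [h5]
      exact (hF A).1 hA
    have h3 := hcon.2.1 h2
    refine hgood ⟨A, h1, γ j A, hγne j A hAj, ?_, h3⟩
    exact Finset.disjoint_of_subset_right (hsubC j A hAj) (disjoint_iff_inter_eq_empty.2 hAj)
  have hone : ∀ j : Fin M, (F.filter fun A => A ∩ C d hN j = ∅).card ≤
      2 * (F \ S).card + ∑ i, ∑ e ∈ C d hN j, Inf (fun A => 0 < h i A) e := by
    intro j
    have h1 : (F.filter fun A => A ∩ C d hN j = ∅) ⊆
        ((F \ S) ∪ (F.filter fun A => A ∩ C d hN j = ∅ ∧ A ∪ pw d (γ j A) ∈ F \ S)) ∪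
          univ.biUnion (Q j) := by
      intro A hA
      rw [mem_filter] at hA
      rcases hpair j A hA.1 hA.2 with h | h | ⟨i, h⟩
      · exact mem_union_left _ (mem_union_left _ h)
      · exact mem_union_left _ (mem_union_right _ (mem_filter.2 ⟨hA.1, hA.2, h⟩))
      · exact mem_union_right _ (mem_biUnion.2 ⟨i, mem_univ i, h⟩)
    have h2 : (F.filter fun A => A ∩ C d hN j = ∅ ∧ A ∪ pw d (γ j A) ∈ F \ S).card
        ≤ (F \ S).card := by
      refine card_le_card_of_injOn (fun A => A ∪ pw d (γ j A)) ?_ ?_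
      · intro A hA
        exact (mem_filter.1 (mem_coe.1 hA)).2.2
      · intro A hA B hB hAB
        have hA' := (mem_filter.1 (mem_coe.1 hA)).2.1
        have hB' := (mem_filter.1 (mem_coe.1 hB)).2.1
        have key : ∀ X : Finset (Fin d → Fin N), X ∩ C d hN j = ∅ →
            (X ∪ pw d (γ j X)) \ C d hN j = X := by
          intro X hX
          rw [union_sdiff_distrib, sdiff_eq_empty_iff_subset.2 (hsubC j X hX), union_empty]
          exact sdiff_eq_self_iff_disjoint.2 (disjoint_iff_inter_eq_empty.2 hX)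
        have hAB' : A ∪ pw d (γ j A) = B ∪ pw d (γ j B) := hAB
        rw [← key A hA', ← key B hB', hAB']
    have h3 := (card_le_card h1).trans (card_union_le _ _)
    have h4 := card_union_le (F \ S) (F.filter fun A => A ∩ C d hN j = ∅ ∧
      A ∪ pw d (γ j A) ∈ F \ S)
    have h5 : (univ.biUnion (Q j)).card ≤ ∑ i, ∑ e ∈ C d hN j, Inf (fun A => 0 < h i A) e :=
      card_biUnion_le.trans (sum_le_sum fun i _ => hQc j i)
    omega
  -- total influence on the union of the blocks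
  obtain ⟨K, hK⟩ : ∃ K : Finset (Fin d → Fin N), K = univ.biUnion (C d hN) := ⟨_, rfl⟩
  have hdisj : ((univ : Finset (Fin M)) : Set (Fin M)).PairwiseDisjoint (C d hN) := by
    intro j _ j' _ hjj
    exact C_disj hd hN j j' hjj
  have hKc : K.card = M * c₀ := by
    rw [hK, card_biUnion (fun j _ j' _ hjj => C_disj hd hN j j' hjj)]
    simp only [card_C, sum_const, card_univ, Fintype.card_fin, smul_eq_mul]
    rw [hc₀]
  have hKn : n₀ ≤ K.card := by
    rw [hKc]
    exact hMn.trans (Nat.le_mul_of_pos_right M hc1)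
  have hinf : ∀ i, ∑ j, ∑ e ∈ C d hN j, (Inf (fun A => 0 < h i A) e : ℝ) ≤
      η * (M * c₀) * W := by
    intro i
    rw [← sum_biUnion hdisj, ← hK]
    obtain ⟨j, hj1, hj2, hj3⟩ := hreg i
    obtain ⟨j', rfl⟩ : ∃ j', j = j' + 1 := ⟨j - 1, by omega⟩
    have := hn₀ (j' + 1) hj2 (Fin d → Fin N) K (fun A => 0 < h i A) hKn (cx_of_reg j' (h i) hj3)
    rw [hKc, ← hW] at this
    push_cast at this
    exact this
  have hup : ∑ A ∈ F, cnt (C d hN) (fun _ => ∅) A ≤
      M * (2 * (F \ S).card) + r * (η * (M * c₀) * W) := by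
    unfold cnt
    rw [sum_comm]
    calc _ ≤ ∑ j : Fin M, ((2 * (F \ S).card : ℝ) +
          ∑ i, ∑ e ∈ C d hN j, (Inf (fun A => 0 < h i A) e : ℝ)) := by
          refine sum_le_sum fun j _ => ?_
          rw [Finset.sum_boole]
          exact_mod_cast hone j
      _ = M * (2 * (F \ S).card) +
          ∑ i : Fin r, ∑ j, ∑ e ∈ C d hN j, (Inf (fun A => 0 < h i A) e : ℝ) := by
          rw [sum_add_distrib, sum_comm]
          simp
      _ ≤ M * (2 * (F \ S).card) + ∑ _i : Fin r, (η * (M * c₀) * W) := by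
          exact add_le_add le_rfl (sum_le_sum fun i _ => hinf i)
      _ = _ := by
          rw [sum_const, card_univ, Fintype.card_fin, nsmul_eq_mul]
  have h5 : μ * (δ * W) ≤ μ * F.card := mul_le_mul_of_nonneg_left hFc hμ0.le
  have hM0 : (M : ℝ) = μ * 2 ^ c₀ := by rw [hμ]; field_simp
  have h6 : (M : ℝ) * (2 * (F \ S).card) ≤ μ * δ / 4 * W := by
    calc (M : ℝ) * (2 * (F \ S).card) ≤ M * (2 * (δ / (8 * 2 ^ c₀) * W)) := by
          refine mul_le_mul_of_nonneg_left ?_ (Nat.cast_nonneg M)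
          linarith
      _ = μ * δ / 4 * W := by
          rw [hM0]; field_simp; ring
  have h6' : (r : ℝ) * (η * (M * c₀) * W) ≤ μ * δ / 4 * W := by
    have h61 : (r : ℝ) * (η * (M * c₀) * W) = (r / (r + 1)) * (μ * δ / 4 * W) := by
      rw [hM0, hη]
      have : (0 : ℝ) < r + 1 := by positivity
      field_simp
    rw [h61]
    have h62 : (r : ℝ) / (r + 1) ≤ 1 := by
      rw [div_le_one (by positivity)]
      linarith
    have h63 : 0 ≤ μ * δ / 4 * W := by positivity
    calc (r : ℝ) / (r + 1) * (μ * δ / 4 * W) ≤ 1 * (μ * δ / 4 * W) :=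
          mul_le_mul_of_nonneg_right h62 h63
      _ = _ := one_mul _
  have h7 : μ * δ / 2 * W ≤ Real.sqrt μ * W := by linarith
  have h8 : μ * δ / 2 ≤ Real.sqrt μ := le_of_mul_le_mul_right h7 hW0
  have hs : Real.sqrt μ * Real.sqrt μ = μ := Real.mul_self_sqrt hμ0.le
  have hs0 : 0 < Real.sqrt μ := Real.sqrt_pos.2 hμ0
  have h9 : Real.sqrt μ * δ ≤ 2 := by
    have : Real.sqrt μ * δ * Real.sqrt μ ≤ 2 * Real.sqrt μ := by
      calc Real.sqrt μ * δ * Real.sqrt μ = (Real.sqrt μ * Real.sqrt μ) * δ := by ring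
        _ = μ * δ := by rw [hs]
        _ ≤ 2 * Real.sqrt μ := by linarith
    exact le_of_mul_le_mul_right this hs0
  have h10 : 2 / δ < Real.sqrt μ := by
    rw [Real.lt_sqrt (by positivity), div_pow]
    norm_num
    exact hμ1
  rw [div_lt_iff₀ hδ] at h10
  linarith

end Pool.Agent.TH484.PH
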