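import Mathlib
import Pool.Agent.TH484.PH.Main

set_option autoImplicit false

/-!
Planted patterns on which a polynomial without terms meeting two blocks is constant.
-/

namespace Pool.Agent.TH484.PH

open Finset Pool.Agent.H720R3

/-- goodness of a family -/
def GoodF {N d : ℕ} (S : Finset (Finset (Fin d → Fin N))) : Prop :=
  ∃ A ∈ S, ∃ γ : Finset (Fin N), γ.Nonempty ∧ Disjoint A (pw d γ) ∧ A ∪ pw d γ ∈ S

/-- the copy of a set of `d`-tuples of `[m]` -/
def pat {N m d : ℕ} (T : Finset (Fin N)) (π : Fin N → Fin m) (B : Finset (Fin d → Fin m)) :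
    Finset (Fin d → Fin N) := (pw d T).filter (fun x => (fun i => π (x i)) ∈ B)

lemma mem_pat {N m d : ℕ} {T : Finset (Fin N)} {π : Fin N → Fin m} {B : Finset (Fin d → Fin m)}
    {x : Fin d → Fin N} : x ∈ pat T π B ↔ (∀ i, x i ∈ T) ∧ (fun i => π (x i)) ∈ B := by
  rw [pat, mem_filter, mem_pw]

/-- simultaneous returns -/
lemma polyret (d : ℕ) (hd : 1 ≤ d) (D m : ℕ) (hm : 1 ≤ m) (G : Type) [AddCommGroup G]
    [Fintype G] :
    ∃ n : ℕ, 1 ≤ n ∧ ∀ (N : ℕ) (c : Finset (Fin d → Fin N) → G) (T : Finset (Fin N))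
      (Z : Finset (Fin d → Fin N)), n ≤ T.card →
      ∃ T' ⊆ T, ∃ π : Fin N → Fin m, (∀ a, ∃ x ∈ T', π x = a) ∧
        ∀ B : Finset (Fin d → Fin m), poly D c (Z ∪ pat T' π B) = poly D c Z := by
  classical
  obtain ⟨r, hr⟩ := exists_return (d * D) (Finset (Fin d → Fin m) → G)
  refine ⟨m * (r + 1) + 1, by omega, fun N c T Z hT => ?_⟩
  have hcard : Fintype.card (Fin m × Fin (r + 1)) ≤ Fintype.card T := by
    rw [Fintype.card_prod, Fintype.card_fin, Fintype.card_fin, Fintype.card_coe]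
    omega
  obtain ⟨φ⟩ := Function.Embedding.nonempty_of_card_le hcard
  have hφ : ∀ p q : Fin m × Fin (r + 1), ((φ p : Fin N) = φ q) → p = q := fun p q h =>
    φ.injective (Subtype.ext h)
  -- the inverse
  obtain ⟨inv, hinv⟩ : ∃ inv : Fin N → Fin m × Fin (r + 1),
      ∀ p : Fin m × Fin (r + 1), inv (φ p : Fin N) = p := by
    refine ⟨fun x => if h : ∃ p : Fin m × Fin (r + 1), (φ p : Fin N) = x then Classical.choose h
      else (⟨0, hm⟩, 0), fun p => ?_⟩
    have h : ∃ q : Fin m × Fin (r + 1), (φ q : Fin N) = (φ p : Fin N) := ⟨p, rfl⟩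
    show (if h : ∃ q : Fin m × Fin (r + 1), (φ q : Fin N) = (φ p : Fin N) then Classical.choose h
      else (⟨0, hm⟩, 0)) = p
    rw [dif_pos h]
    exact hφ _ _ (Classical.choose_spec h)
  obtain ⟨π, hπ⟩ : ∃ π : Fin N → Fin m, π = fun x => (inv x).1 := ⟨_, rfl⟩
  obtain ⟨ρ, hρ⟩ : ∃ ρ : Fin N → Fin (r + 1), ρ = fun x => (inv x).2 := ⟨_, rfl⟩
  obtain ⟨V, hV⟩ : ∃ V : Finset (Fin (r + 1)) → Finset (Fin N), V = fun g =>
      (univ ×ˢ g).image (fun p : Fin m × Fin (r + 1) => (φ p : Fin N)) := ⟨_, rfl⟩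
  have hmemV : ∀ (g : Finset (Fin (r + 1))) (x : Fin N), x ∈ V g ↔ x ∈ V univ ∧ ρ x ∈ g := by
    intro g x
    rw [hV, hρ]
    simp only [mem_image, mem_product, mem_univ, true_and]
    constructor
    · rintro ⟨p, hp, rfl⟩
      refine ⟨⟨p, rfl⟩, ?_⟩
      rw [hinv]
      exact hp
    · rintro ⟨⟨p, rfl⟩, h⟩
      rw [hinv] at h
      exact ⟨p, h, rfl⟩
  obtain ⟨ψ, hψ⟩ : ∃ ψ : Finset (Fin (r + 1)) → (Finset (Fin d → Fin m) → G), ψ = fun g B =>
      poly D c (Z ∪ pat (V g) π B) := ⟨_, rfl⟩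
  obtain ⟨g, -, hgne, hg⟩ := hr (Fin (r + 1)) univ ψ (by rw [card_univ, Fintype.card_fin]; omega)
    (by
      refine deg_of_sum (univ.filter fun X : Finset (Fin d → Fin N) => X.card ≤ D)
        (fun X => (X \ Z).biUnion fun x => univ.image fun i => ρ (x i))
        (fun X B => if X \ Z ⊆ pat (V univ) π B then c X else 0) ?_ ψ univ ?_
      · intro X hX
        rw [mem_filter] at hX
        calc ((X \ Z).biUnion fun x => univ.image fun i => ρ (x i)).card
            ≤ ∑ x ∈ X \ Z, (univ.image fun i => ρ (x i)).card := card_biUnion_le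
          _ ≤ ∑ _x ∈ X \ Z, d := sum_le_sum fun x _ => by
              calc (univ.image fun i => ρ (x i)).card ≤ (univ : Finset (Fin d)).card :=
                    card_image_le
                _ = d := by simp
          _ = (X \ Z).card * d := by rw [sum_const, smul_eq_mul]
          _ ≤ D * d := Nat.mul_le_mul_right d ((card_le_card sdiff_subset).trans hX.2)
          _ = d * D := mul_comm _ _
      · intro g _
        funext B
        rw [hψ]
        simp only
        rw [Finset.sum_apply, poly]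
        have h1 : ∀ X ∈ univ.filter (fun X : Finset (Fin d → Fin N) => X.card ≤ D),
            (if ((X \ Z).biUnion fun x => univ.image fun i => ρ (x i)) ⊆ g then
              (fun B : Finset (Fin d → Fin m) => if X \ Z ⊆ pat (V univ) π B then c X else 0)
              else 0) B =
            if ((X \ Z).biUnion fun x => univ.image fun i => ρ (x i)) ⊆ g ∧
              X \ Z ⊆ pat (V univ) π B then c X else 0 := by
          intro X _
          by_cases h2 : ((X \ Z).biUnion fun x => univ.image fun i => ρ (x i)) ⊆ g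
          · rw [if_pos h2]
            by_cases h3 : X \ Z ⊆ pat (V univ) π B
            · rw [if_pos h3, if_pos ⟨h2, h3⟩]
            · rw [if_neg h3, if_neg fun h => h3 h.2]
          · rw [if_neg h2, if_neg fun h => h2 h.1]
            rfl
        rw [sum_congr rfl h1, ← sum_filter]
        refine sum_congr ?_ fun _ _ => rfl
        ext X
        rw [mem_filter, mem_filter, mem_filter, mem_powerset]
        have hiff : X ⊆ Z ∪ pat (V g) π B ↔
            ((X \ Z).biUnion fun x => univ.image fun i => ρ (x i)) ⊆ g ∧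
              X \ Z ⊆ pat (V univ) π B := by
          constructor
          · intro h
            have h2 : ∀ x ∈ X \ Z, x ∈ pat (V g) π B := fun x hx =>
              (mem_union.1 (h (mem_sdiff.1 hx).1)).resolve_left (mem_sdiff.1 hx).2
            constructor
            · intro y hy
              rw [mem_biUnion] at hy
              obtain ⟨x, hx, hy⟩ := hy
              rw [mem_image] at hy
              obtain ⟨i, -, rfl⟩ := hy
              exact ((hmemV g (x i)).1 ((mem_pat.1 (h2 x hx)).1 i)).2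
            · intro x hx
              have h3 := mem_pat.1 (h2 x hx)
              exact mem_pat.2 ⟨fun i => ((hmemV g (x i)).1 (h3.1 i)).1, h3.2⟩
          · rintro ⟨h2, h3⟩ x hx
            by_cases hxZ : x ∈ Z
            · exact mem_union_left _ hxZ
            · have h4 : x ∈ X \ Z := mem_sdiff.2 ⟨hx, hxZ⟩
              have h5 := mem_pat.1 (h3 h4)
              refine mem_union_right _ (mem_pat.2 ⟨fun i => ?_, h5.2⟩)
              rw [hmemV]
              refine ⟨h5.1 i, h2 ?_⟩
              rw [mem_biUnion]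
              exact ⟨x, h4, mem_image_of_mem (fun i => ρ (x i)) (mem_univ i)⟩
        rw [hiff]
        simp only [mem_univ, true_and]
        exact and_comm)
  refine ⟨V g, ?_, π, ?_, ?_⟩
  · intro x hx
    rw [hV, mem_image] at hx
    obtain ⟨p, -, rfl⟩ := hx
    exact (φ p).2
  · intro a
    obtain ⟨i, hi⟩ := hgne
    refine ⟨φ (a, i), ?_, ?_⟩
    · rw [hV, mem_image]
      exact ⟨(a, i), mem_product.2 ⟨mem_univ _, hi⟩, rfl⟩
    · rw [hπ]
      show (inv (φ (a, i) : Fin N)).1 = a
      rw [hinv]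
  · intro B
    have h1 : pat (V ∅) π B = (∅ : Finset (Fin d → Fin N)) := by
      ext x
      rw [mem_pat]
      constructor
      · rintro ⟨h2, -⟩
        have h3 := h2 ⟨0, hd⟩
        rw [hmemV] at h3
        exact absurd h3.2 (notMem_empty _)
      · intro h
        exact absurd h (notMem_empty _)
    have h2 : ψ g B = ψ ∅ B := by rw [hg]
    rw [hψ] at h2
    simp only at h2
    rw [h2, h1, union_empty]

/-- goodness is inherited from the patterns -/
lemma transfer {N m d : ℕ} {T : Finset (Fin N)} {π : Fin N → Fin m}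
    (hπ : ∀ a, ∃ x ∈ T, π x = a) (S : Finset (Finset (Fin d → Fin N)))
    (R : Finset (Fin d → Fin N)) (hR : Disjoint R (pw d T))
    (𝒮 : Finset (Finset (Fin d → Fin m))) (h𝒮 : ∀ B ∈ 𝒮, R ∪ pat T π B ∈ S) (hg : GoodF 𝒮) :
    GoodF S := by
  classical
  obtain ⟨B, hB, β, hβ, hdis, hBβ⟩ := hg
  have h1 : pw d (T.filter (fun x => π x ∈ β)) = pat T π (pw d β) := by
    ext x
    rw [mem_pat, mem_pw, mem_pw]
    constructor
    · intro h
      exact ⟨fun i => (mem_filter.1 (h i)).1, fun i => (mem_filter.1 (h i)).2⟩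
    · rintro ⟨h2, h3⟩ i
      exact mem_filter.2 ⟨h2 i, h3 i⟩
  refine ⟨R ∪ pat T π B, h𝒮 B hB, T.filter (fun x => π x ∈ β), ?_, ?_, ?_⟩
  · obtain ⟨b, hb⟩ := hβ
    obtain ⟨x, hx, hxb⟩ := hπ b
    exact ⟨x, mem_filter.2 ⟨hx, hxb ▸ hb⟩⟩
  · rw [h1, disjoint_union_left]
    constructor
    · exact Finset.disjoint_of_subset_right (filter_subset _ _) hR
    · rw [Finset.disjoint_left]
      intro x hx hx'
      exact (Finset.disjoint_left.1 hdis) (mem_filter.1 hx).2 (mem_filter.1 hx').2
  · have h2 : R ∪ pat T π B ∪ pw d (T.filter (fun x => π x ∈ β)) =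
        R ∪ pat T π (B ∪ pw d β) := by
      rw [h1, union_assoc]
      congr 1
      ext x
      simp only [pat, mem_union, mem_filter]
      tauto
    rw [h2]
    exact h𝒮 _ hBβ

/-- terms meeting a set `P` only see `Z` and `P` -/
lemma local_poly {E G : Type} [Fintype E] [DecidableEq E] [AddCommGroup G] (D : ℕ)
    (c : Finset E → G) (R Z P : Finset E) (hZR : Z ⊆ R) (hRP : Disjoint R P)
    (hc : ∀ T : Finset E, c T ≠ 0 → T ⊆ R ∪ P → (∃ x ∈ T, x ∈ P) → T ⊆ Z ∪ P)
    (h : poly D c (Z ∪ P) = poly D c Z) : poly D c (R ∪ P) = poly D c R := by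
  classical
  obtain ⟨I, hI⟩ : ∃ I : Finset E → Finset (Finset E), I = fun A =>
      A.powerset.filter (fun T => T.card ≤ D) := ⟨_, rfl⟩
  have hp : ∀ A, poly D c A = ∑ T ∈ I A, c T := fun A => by rw [hI]; rfl
  have hIm : ∀ A T, T ∈ I A ↔ T ⊆ A ∧ T.card ≤ D := by
    intro A T
    rw [hI, mem_filter, mem_powerset]
  have hmono : ∀ A B : Finset E, A ⊆ B → I A ⊆ I B := by
    intro A B hAB T hT
    rw [hIm] at hT ⊢
    exact ⟨hT.1.trans hAB, hT.2⟩
  have h1 : ∀ A : Finset E, poly D c (A ∪ P) = ∑ T ∈ I (A ∪ P) \ I A, c T + poly D c A := by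
    intro A
    rw [hp, hp, sum_sdiff (hmono _ _ subset_union_left)]
  have h2 : ∑ T ∈ I (Z ∪ P) \ I Z, c T = ∑ T ∈ I (R ∪ P) \ I R, c T := by
    refine sum_subset ?_ ?_
    · intro T hT
      rw [mem_sdiff, hIm, hIm, not_and] at hT
      rw [mem_sdiff, hIm, hIm, not_and]
      refine ⟨⟨hT.1.1.trans (union_subset_union_left hZR), hT.1.2⟩, fun h3 => ?_⟩
      exfalso
      refine hT.2 (fun x hx => ?_) hT.1.2
      exact (mem_union.1 (hT.1.1 hx)).resolve_right fun h4 =>
        (Finset.disjoint_left.1 hRP) (h3 hx) h4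
    · intro T hT hT'
      by_contra hcT
      apply hT'
      rw [mem_sdiff, hIm, hIm, not_and] at hT ⊢
      have h3 : ∃ x ∈ T, x ∈ P := by
        by_contra h4
        push Not at h4
        refine hT.2 (fun x hx => ?_) hT.1.2
        exact (mem_union.1 (hT.1.1 hx)).resolve_right (h4 x hx)
      refine ⟨⟨hc T hcT hT.1.1 h3, hT.1.2⟩, fun h4 => ?_⟩
      obtain ⟨x, hx, hxP⟩ := h3
      exact absurd hxP ((Finset.disjoint_left.1 hRP) (hZR (h4 hx)))
  have h3 := h1 Z
  rw [h, h2] at h3
  rw [h1 R]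
  have h4 : ∑ T ∈ I (R ∪ P) \ I R, c T = 0 := by
    have := h3.symm
    rwa [add_eq_right] at this
  rw [h4, zero_add]

end Pool.Agent.TH484.PH
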