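import Mathlib
import Pool.Agent.TH484.PH.Rel
import Pool.Agent.TH484.PH.ConcZ

set_option autoImplicit false

/-!
Families of large relative density in structured families of subsets of `[N]^d`.
-/

namespace Pool.Agent.TH484.PH

open Finset Pool.Agent.H720R3

theorem relmain (d : ℕ) (hd : 1 ≤ d) (θ θ' : ℝ) (hθ0 : 0 ≤ θ') (hθ : θ' < θ) (m : ℕ) (hm : 1 ≤ m)
    (hdens : ∀ S : Finset (Finset (Fin d → Fin m)), θ' * (2 : ℝ) ^ (m ^ d) < S.card → GoodF S)
    (D k r : ℕ) (G : Type) [AddCommGroup G] [Finite G] (δ : ℝ) (hδ : 0 < δ) :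
    ∃ N₀ : ℕ, ∀ N : ℕ, N₀ ≤ N →
      ∀ (h : Fin r → Finset (Fin d → Fin N) → ℝ) (c : Finset (Fin d → Fin N) → G)
        (R : (Fin r → Prop) → G → Prop) (F S : Finset (Finset (Fin d → Fin N))),
        (∀ i, ∃ j, 1 ≤ j ∧ j ≤ k ∧ Reg j (h i)) →
        (∀ T, c T ≠ 0 → ∀ x ∈ T, ∀ y ∈ T, ∃ i j, x i = y j) →
        (∀ A, A ∈ F ↔ R (fun i => 0 < h i A) (poly D c A)) → δ * (2 : ℝ) ^ (N ^ d) ≤ F.card →
          θ * F.card ≤ (F ∩ S).card → GoodF S := by
  classical
  have := Fintype.ofFinite G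
  obtain ⟨n, hn1, hret⟩ := polyret d hd D m hm G
  obtain ⟨c₀, hc₀⟩ : ∃ c₀ : ℕ, c₀ = n ^ d := ⟨_, rfl⟩
  have hc1 : 1 ≤ c₀ := by rw [hc₀]; exact Nat.one_le_pow _ _ hn1
  obtain ⟨κ, hκ⟩ : ∃ κ : ℝ, κ = θ - θ' := ⟨_, rfl⟩
  have hκ0 : 0 < κ := by rw [hκ]; linarith
  obtain ⟨η, hη⟩ : ∃ η : ℝ, η = κ * δ / (2 * (r + 1) * c₀ * 2 ^ c₀) := ⟨_, rfl⟩
  have hcR : (0 : ℝ) < c₀ := by exact_mod_cast hc1
  have hη0 : 0 < η := by rw [hη]; positivity
  obtain ⟨n₀, hn₀⟩ := inflAll k η hη0
  obtain ⟨M1, hM1⟩ := exists_nat_gt ((2 * (1 + θ') / (κ * δ)) ^ 2 * 2 ^ c₀)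
  obtain ⟨M, hMdef⟩ : ∃ M : ℕ, M = max M1 n₀ := ⟨_, rfl⟩
  have hM : (2 * (1 + θ') / (κ * δ)) ^ 2 * 2 ^ c₀ < (M : ℝ) := by
    have : (M1 : ℝ) ≤ M := by rw [hMdef]; exact_mod_cast le_max_left _ _
    linarith
  have hMn : n₀ ≤ M := by rw [hMdef]; exact le_max_right _ _
  refine ⟨M * n, fun N hN h c R F S hreg hcint hF hFc hFS => ?_⟩
  by_contra hgood
  obtain ⟨μ, hμ⟩ : ∃ μ : ℝ, μ = (M : ℝ) / 2 ^ c₀ := ⟨_, rfl⟩
  have hμ1 : (2 * (1 + θ') / (κ * δ)) ^ 2 < μ := by
    rw [hμ, lt_div_iff₀ (by positivity)]; exact hM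
  have hμ0 : 0 < μ := lt_of_le_of_lt (sq_nonneg _) hμ1
  obtain ⟨W, hW⟩ : ∃ W : ℝ, W = 2 ^ Fintype.card (Fin d → Fin N) := ⟨_, rfl⟩
  have hWe : W = (2 : ℝ) ^ (N ^ d) := by rw [hW]; simp
  have hW0 : 0 < W := by rw [hW]; positivity
  rw [← hWe] at hFc
  obtain ⟨L, hL⟩ : ∃ L : ℝ, L = (2 : ℝ) ^ (m ^ d) := ⟨_, rfl⟩
  have hL0 : 0 < L := by rw [hL]; positivity
  have hLc : ((univ : Finset (Finset (Fin d → Fin m))).card : ℝ) = L := by
    rw [card_univ, Fintype.card_finset, hL]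
    simp
  rw [← hL] at hdens
  -- the union of the blocks
  obtain ⟨K, hK⟩ : ∃ K : Finset (Fin d → Fin N), K = univ.biUnion (C d hN) := ⟨_, rfl⟩
  have hCK : ∀ j, C d hN j ⊆ K := fun j => by
    rw [hK]
    exact subset_biUnion_of_mem (C d hN) (mem_univ j)
  have hdisj : ((univ : Finset (Fin M)) : Set (Fin M)).PairwiseDisjoint (C d hN) := by
    intro j _ j' _ hjj
    exact C_disj hd hN j j' hjj
  have hKc : K.card = M * c₀ := by
    rw [hK, card_biUnion (fun j _ j' _ hjj => C_disj hd hN j j' hjj)]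
    simp only [card_C, sum_const, card_univ, Fintype.card_fin, smul_eq_mul]
    rw [hc₀]
  have hKn : n₀ ≤ K.card := by
    rw [hKc]
    exact hMn.trans (Nat.le_mul_of_pos_right M hc1)
  -- the patterns
  have hch : ∀ (Z : Finset (Fin d → Fin N)) (j : Fin M), ∃ T' ⊆ T hN j, ∃ π : Fin N → Fin m,
      (∀ a, ∃ x ∈ T', π x = a) ∧
        ∀ B : Finset (Fin d → Fin m), poly D c (Z ∪ pat T' π B) = poly D c Z :=
    fun Z j => hret N c (T hN j) Z (by rw [card_T])
  choose T' hT' π hπ1 hπ2 using hch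
  obtain ⟨P, hP⟩ : ∃ P : Finset (Fin d → Fin m) → Finset (Fin d → Fin N) → Fin M →
      Finset (Fin d → Fin N), P = fun B Z j => pat (T' Z j) (π Z j) B := ⟨_, rfl⟩
  have hPC : ∀ B Z j, P B Z j ⊆ C d hN j := by
    intro B Z j x hx
    rw [hP] at hx
    rw [C, mem_pw]
    exact fun i => hT' Z j ((mem_pat.1 hx).1 i)
  have hPdis : ∀ B Z j (Q : Finset (Fin d → Fin N)), Q ∩ C d hN j = ∅ → Disjoint Q (P B Z j) :=
    fun B Z j Q hQ => Finset.disjoint_of_subset_right (hPC B Z j) (disjoint_iff_inter_eq_empty.2 hQ)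
  -- the polynomial does not change
  have hneu : ∀ B j (Q : Finset (Fin d → Fin N)), Q ∩ C d hN j = ∅ →
      poly D c (Q ∪ P B (Q \ K) j) = poly D c Q := by
    intro B j Q hQ
    refine local_poly D c Q (Q \ K) (P B (Q \ K) j) sdiff_subset (hPdis B (Q \ K) j Q hQ) ?_ ?_
    · rintro X hX hXs ⟨x, hx, hxP⟩ y hy
      rcases mem_union.1 (hXs hy) with hyQ | hyP
      · refine mem_union_left _ (mem_sdiff.2 ⟨hyQ, fun hyK => ?_⟩)
        rw [hK, mem_biUnion] at hyK
        obtain ⟨j', -, hyj'⟩ := hyK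
        obtain ⟨i, i', hii⟩ := hcint X hX x hx y hy
        have h1 : x i ∈ T hN j := by
          have := hPC B (Q \ K) j hxP
          rw [C, mem_pw] at this
          exact this i
        have h2 : y i' ∈ T hN j' := by
          rw [C, mem_pw] at hyj'
          exact hyj' i'
        by_cases hjj : j = j'
        · rw [← hjj] at hyj'
          have : y ∈ Q ∩ C d hN j := mem_inter.2 ⟨hyQ, hyj'⟩
          rw [hQ] at this
          exact notMem_empty _ this
        · rw [← hii] at h2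
          exact (Finset.disjoint_left.1 (T_disj hN hjj)) h1 h2
      · exact mem_union_right _ hyP
    · rw [hP]
      exact hπ2 (Q \ K) j B
  -- exceptional sets
  obtain ⟨Q, hQ⟩ : ∃ Q : Fin M → Fin r → Finset (Finset (Fin d → Fin N)), Q = fun j i =>
      univ.filter (fun A => A ∩ C d hN j = ∅ ∧
        ∃ B, ¬ (0 < h i A ↔ 0 < h i (A ∪ P B (A \ K) j))) := ⟨_, rfl⟩
  have hQc : ∀ j i, (Q j i).card ≤ ∑ e ∈ C d hN j, Inf (fun A => 0 < h i A) e := by
    intro j i
    refine count (fun A => 0 < h i A) (C d hN j) (Q j i) fun A hA => ?_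
    rw [hQ, mem_filter] at hA
    obtain ⟨B, hB⟩ := hA.2.2
    exact ⟨hA.2.1, P B (A \ K) j, hPC B (A \ K) j, hB⟩
  obtain ⟨Q', hQ'⟩ : ∃ Q' : Fin M → Finset (Finset (Fin d → Fin N)), Q' = fun j =>
      univ.biUnion (Q j) := ⟨_, rfl⟩
  have hQ'c : ∀ j, (Q' j).card ≤ ∑ i, ∑ e ∈ C d hN j, Inf (fun A => 0 < h i A) e := by
    intro j
    rw [hQ']
    exact card_biUnion_le.trans (sum_le_sum fun i _ => hQc j i)
  have hinf : ∀ i, ∑ j, ∑ e ∈ C d hN j, (Inf (fun A => 0 < h i A) e : ℝ) ≤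
      η * (M * c₀) * W := by
    intro i
    rw [← sum_biUnion hdisj, ← hK]
    obtain ⟨j, hj1, hj2, hj3⟩ := hreg i
    obtain ⟨j', rfl⟩ : ∃ j', j = j' + 1 := ⟨j - 1, by omega⟩
    have := hn₀ (j' + 1) hj2 (Fin d → Fin N) K (fun A => 0 < h i A) hKn (cx_of_reg j' (h i) hj3)
    rw [hKc, ← hW] at this
    push_cast at this
    exact this
  have hQsum : ∑ j, ((Q' j).card : ℝ) ≤ r * (η * (M * c₀) * W) := by
    calc ∑ j, ((Q' j).card : ℝ) ≤
          ∑ j : Fin M, ∑ i, ∑ e ∈ C d hN j, (Inf (fun A => 0 < h i A) e : ℝ) := by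
          refine sum_le_sum fun j _ => ?_
          exact_mod_cast hQ'c j
      _ = ∑ i : Fin r, ∑ j, ∑ e ∈ C d hN j, (Inf (fun A => 0 < h i A) e : ℝ) := sum_comm
      _ ≤ ∑ _i : Fin r, (η * (M * c₀) * W) := sum_le_sum fun i _ => hinf i
      _ = _ := by rw [sum_const, card_univ, Fintype.card_fin, nsmul_eq_mul]
  -- the number of patterns in one place
  have hone : ∀ (j : Fin M) (A : Finset (Fin d → Fin N)), A ∩ C d hN j = ∅ →
      ((univ.filter (fun B => A ∪ P B (A \ K) j ∈ F ∩ S)).card : ℝ) ≤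
        (if A ∈ F then θ' * L else 0) + (if A ∈ Q' j then L else 0) := by
    intro j A hA
    have hle : ((univ.filter (fun B => A ∪ P B (A \ K) j ∈ F ∩ S)).card : ℝ) ≤ L := by
      rw [← hLc]
      exact_mod_cast card_le_card (filter_subset _ _)
    have hnn : (0 : ℝ) ≤ if A ∈ Q' j then L else 0 := by
      split_ifs
      · exact hL0.le
      · exact le_rfl
    by_cases hAF : A ∈ F
    · rw [if_pos hAF]
      have h1 : ((univ.filter (fun B => A ∪ P B (A \ K) j ∈ F ∩ S)).card : ℝ) ≤ θ' * L := by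
        by_contra hcon
        push Not at hcon
        have h2 := hdens _ hcon
        refine hgood (transfer (hπ1 (A \ K) j) S A ?_ _ ?_ h2)
        · refine Finset.disjoint_of_subset_right ?_ (disjoint_iff_inter_eq_empty.2 hA)
          intro x hx
          rw [C, mem_pw]
          rw [mem_pw] at hx
          exact fun i => hT' (A \ K) j (hx i)
        · intro B hB
          have := (mem_filter.1 hB).2
          rw [hP] at this
          exact (mem_inter.1 this).2
      linarith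
    · rw [if_neg hAF, zero_add]
      by_cases hAQ : A ∈ Q' j
      · rw [if_pos hAQ]
        exact hle
      · rw [if_neg hAQ]
        have h1 : univ.filter (fun B => A ∪ P B (A \ K) j ∈ F ∩ S) = ∅ := by
          rw [filter_eq_empty_iff]
          intro B _ hB
          apply hAF
          have h2 := (hF _).1 (mem_inter.1 hB).1
          rw [hneu B j A hA] at h2
          have h3 : ∀ i, (0 < h i A ↔ 0 < h i (A ∪ P B (A \ K) j)) := by
            intro i
            by_contra h4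
            apply hAQ
            rw [hQ', mem_biUnion]
            refine ⟨i, mem_univ i, ?_⟩
            rw [hQ, mem_filter]
            exact ⟨mem_univ _, hA, B, h4⟩
          have h5 : (fun i => 0 < h i (A ∪ P B (A \ K) j)) = fun i => 0 < h i A :=
            funext fun i => propext (h3 i).symm
          rw [h5] at h2
          exact (hF A).2 h2
        rw [h1, card_empty, Nat.cast_zero]
  -- lower bound
  have hlow : L * (μ * (F ∩ S).card - Real.sqrt μ * W) ≤
      ∑ B, ∑ A ∈ F ∩ S, cnt (C d hN) (P B (A \ K)) A := by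
    have h1 : ∀ B ∈ (univ : Finset (Finset (Fin d → Fin m))),
        μ * (F ∩ S).card - Real.sqrt μ * W ≤ ∑ A ∈ F ∩ S, cnt (C d hN) (P B (A \ K)) A := by
      intro B _
      have := concZ (c := c₀) (C d hN) (P B) (fun Z j => hPC B Z j)
        (fun j => by rw [card_C, hc₀]) (C_disj hd hN) K hCK μ W hμ hW (F ∩ S)
      have h2 := (abs_le.1 this).1
      linarith
    have h2 := sum_le_sum h1
    rw [sum_const, nsmul_eq_mul, hLc] at h2
    exact h2
  -- upper bound
  have hup : ∑ B, ∑ A ∈ F ∩ S, cnt (C d hN) (P B (A \ K)) A ≤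
      θ' * L * (μ * F.card + Real.sqrt μ * W) + L * (r * (η * (M * c₀) * W)) := by
    have h1 : ∀ B, ∑ A ∈ F ∩ S, cnt (C d hN) (P B (A \ K)) A ≤
        ∑ j : Fin M, ∑ A ∈ univ.filter (fun A => A ∩ C d hN j = ∅),
          if A ∪ P B (A \ K) j ∈ F ∩ S then (1 : ℝ) else 0 := by
      intro B
      unfold cnt
      rw [sum_comm]
      refine sum_le_sum fun j _ => ?_
      rw [Finset.sum_boole, Finset.sum_boole, filter_filter]
      exact_mod_cast fibreZ (F ∩ S) (C d hN j) K (hCK j) (fun Z => P B Z j)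
    have h2 : ∑ B, ∑ A ∈ F ∩ S, cnt (C d hN) (P B (A \ K)) A ≤
        ∑ j : Fin M, ∑ A ∈ univ.filter (fun A => A ∩ C d hN j = ∅),
          ((if A ∈ F then θ' * L else 0) + (if A ∈ Q' j then L else 0)) := by
      refine (sum_le_sum fun B _ => h1 B).trans ?_
      rw [sum_comm]
      refine sum_le_sum fun j _ => ?_
      rw [sum_comm]
      refine sum_le_sum fun A hA => ?_
      rw [Finset.sum_boole]
      exact hone j A (mem_filter.1 hA).2
    refine h2.trans ?_
    have h3 : ∀ j : Fin M, ∑ A ∈ univ.filter (fun A => A ∩ C d hN j = ∅),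
        ((if A ∈ F then θ' * L else 0) + (if A ∈ Q' j then L else 0)) ≤
        θ' * L * (F.filter (fun A => A ∩ C d hN j = ∅)).card + L * (Q' j).card := by
      intro j
      rw [sum_add_distrib, ← sum_filter, ← sum_filter, sum_const, sum_const, nsmul_eq_mul,
        nsmul_eq_mul, filter_filter]
      have h4 : (univ.filter (fun A => A ∩ C d hN j = ∅ ∧ A ∈ F)).card =
          (F.filter (fun A => A ∩ C d hN j = ∅)).card := by
        congr 1
        ext A
        rw [mem_filter, mem_filter]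
        constructor
        · rintro ⟨-, h5, h6⟩
          exact ⟨h6, h5⟩
        · rintro ⟨h5, h6⟩
          exact ⟨mem_univ _, h6, h5⟩
      have h5 : ((univ.filter (fun A => A ∩ C d hN j = ∅)).filter (fun A => A ∈ Q' j)).card ≤
          (Q' j).card := by
        refine card_le_card fun A hA => (mem_filter.1 hA).2
      have h6 : (((univ.filter (fun A => A ∩ C d hN j = ∅)).filter (fun A => A ∈ Q' j)).card : ℝ) ≤
          (Q' j).card := by exact_mod_cast h5
      rw [h4]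
      have h7 := mul_le_mul_of_nonneg_right h6 hL0.le
      linarith
    refine (sum_le_sum fun j _ => h3 j).trans ?_
    rw [sum_add_distrib, ← mul_sum, ← mul_sum]
    have h8 : ∑ j : Fin M, ((F.filter (fun A => A ∩ C d hN j = ∅)).card : ℝ) ≤
        μ * F.card + Real.sqrt μ * W := by
      have := concZ (c := c₀) (C d hN) (fun _ _ => ∅) (fun Z j => empty_subset _)
        (fun j => by rw [card_C, hc₀]) (C_disj hd hN) K hCK μ W hμ hW F
      have h9 := (abs_le.1 this).2
      have h10 : ∑ A ∈ F, cnt (C d hN) ((fun _ _ => ∅ : Finset (Fin d → Fin N) → Fin M →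
          Finset (Fin d → Fin N)) (A \ K)) A =
          ∑ j : Fin M, ((F.filter (fun A => A ∩ C d hN j = ∅)).card : ℝ) := by
        unfold cnt
        rw [sum_comm]
        refine sum_congr rfl fun j _ => ?_
        rw [Finset.sum_boole]
      rw [h10] at h9
      linarith
    have h11 : 0 ≤ θ' * L := by positivity
    exact add_le_add (mul_le_mul_of_nonneg_left h8 h11) (mul_le_mul_of_nonneg_left hQsum hL0.le)
  -- conclusion
  have hM0 : (M : ℝ) = μ * 2 ^ c₀ := by rw [hμ]; field_simp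
  have h6' : (r : ℝ) * (η * (M * c₀) * W) ≤ κ * δ * μ / 2 * W := by
    have h61 : (r : ℝ) * (η * (M * c₀) * W) = (r / (r + 1)) * (κ * δ * μ / 2 * W) := by
      rw [hM0, hη]
      have : (0 : ℝ) < r + 1 := by positivity
      field_simp
    rw [h61]
    have h62 : (r : ℝ) / (r + 1) ≤ 1 := by
      rw [div_le_one (by positivity)]
      linarith
    have h63 : 0 ≤ κ * δ * μ / 2 * W := by positivity
    calc (r : ℝ) / (r + 1) * (κ * δ * μ / 2 * W) ≤ 1 * (κ * δ * μ / 2 * W) :=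
          mul_le_mul_of_nonneg_right h62 h63
      _ = _ := one_mul _
  have e1 : μ * (F ∩ S).card - Real.sqrt μ * W ≤
      θ' * (μ * F.card + Real.sqrt μ * W) + κ * δ * μ / 2 * W := by
    have e2 := hlow.trans hup
    have e3 : L * (μ * (F ∩ S).card - Real.sqrt μ * W) ≤
        L * (θ' * (μ * F.card + Real.sqrt μ * W) + κ * δ * μ / 2 * W) := by
      have := mul_le_mul_of_nonneg_left h6' hL0.le
      nlinarith
    exact le_of_mul_le_mul_left e3 hL0
  have e4 : μ * (θ * F.card) ≤ μ * (F ∩ S).card := mul_le_mul_of_nonneg_left hFS hμ0.le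
  have e5 : κ * μ * (δ * W) ≤ κ * μ * F.card :=
    mul_le_mul_of_nonneg_left hFc (by positivity)
  have e6 : κ * δ * μ / 2 * W ≤ (1 + θ') * Real.sqrt μ * W := by
    rw [hκ] at e5 ⊢
    rw [hκ] at e1
    nlinarith
  have e7 : κ * δ * μ / 2 ≤ (1 + θ') * Real.sqrt μ := le_of_mul_le_mul_right e6 hW0
  have hs : Real.sqrt μ * Real.sqrt μ = μ := Real.mul_self_sqrt hμ0.le
  have hs0 : 0 < Real.sqrt μ := Real.sqrt_pos.2 hμ0
  have e8 : κ * δ / 2 * Real.sqrt μ ≤ 1 + θ' := by
    have : (κ * δ / 2 * Real.sqrt μ) * Real.sqrt μ ≤ (1 + θ') * Real.sqrt μ := by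
      calc (κ * δ / 2 * Real.sqrt μ) * Real.sqrt μ = κ * δ / 2 * (Real.sqrt μ * Real.sqrt μ) := by
            ring
        _ = κ * δ * μ / 2 := by rw [hs]; ring
        _ ≤ _ := e7
    exact le_of_mul_le_mul_right this hs0
  have e9 : 2 * (1 + θ') / (κ * δ) < Real.sqrt μ := by
    rw [Real.lt_sqrt (by positivity)]
    exact hμ1
  rw [div_lt_iff₀ (by positivity)] at e9
  linarith

end Pool.Agent.TH484.PH
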