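import Mathlib
import Pool.Agent.TH7.DH.Fin
import Pool.Agent.TH484.PH.RelMain

set_option autoImplicit false

/-!
The critical density, in the class of all families and relative to structured families.
The lemmas `not_good_ow` and `vec` are the proof of VectorThreshold (helper7).
-/

namespace Pool.Agent.TH484.PH

open Finset Filter Topology Pool.Agent.TH7.DH Pool.Agent.H720R3

lemma not_good_ow {N d : ℕ} {S : Finset (Finset (Fin d → Fin N))} (hS : ¬ GoodF S) {s : ℕ}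
    (φ : Empty ⊕ Fin (s + 1) ↪ Fin N) (A : Finset (Fin d → Fin N)) :
    ¬ (ow φ (fun _ => False) A ∈ S ∧ ow φ (fun _ => True) A ∈ S) := by
  classical
  rintro ⟨h0, h1⟩
  refine hS ⟨_, h0, univ.map φ, ⟨φ (Sum.inr 0), mem_map_of_mem _ (mem_univ _)⟩, ?_, ?_⟩
  · rw [Finset.disjoint_left]
    intro c hc hc'
    rw [mem_ow] at hc
    rw [mem_pw] at hc'
    rcases hc with ⟨e, -, he⟩ | ⟨hne, -⟩
    · exact he
    · have : ∀ t, ∃ x, φ x = c t := fun t => by
        have := hc' t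
        rw [Finset.mem_map] at this
        obtain ⟨x, -, hx⟩ := this
        exact ⟨x, hx⟩
      choose e he using this
      exact hne ⟨e, funext he⟩
  · have h2 : ow φ (fun _ => False) A ∪ pw d (univ.map φ) = ow φ (fun _ => True) A := by
      ext c
      have h3 : c ∈ pw d (univ.map φ) ↔ ∃ e : Fin d → Empty ⊕ Fin (s + 1),
          (fun t => φ (e t)) = c := by
        rw [mem_pw]
        constructor
        · intro hc
          have : ∀ t, ∃ x, φ x = c t := fun t => by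
            have := hc t
            rw [Finset.mem_map] at this
            obtain ⟨x, -, hx⟩ := this
            exact ⟨x, hx⟩
          choose e he using this
          exact ⟨e, funext he⟩
        · rintro ⟨e, rfl⟩ t
          exact mem_map_of_mem _ (mem_univ _)
      rw [mem_union, mem_ow, mem_ow, h3]
      by_cases hc : ∃ e : Fin d → Empty ⊕ Fin (s + 1), (fun t => φ (e t)) = c
      · simp [hc]
      · simp [hc]
    rw [h2]
    exact h1

lemma vec (d : ℕ) (hd : 1 ≤ d) (δ : ℝ) (hδ : ((2 : ℝ) ^ (d - 1) - 1) / (2 ^ d - 1) < δ) :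
    ∃ N₀ : ℕ, ∀ N : ℕ, N₀ ≤ N → ∀ S : Finset (Finset (Fin d → Fin N)),
      δ * (2 : ℝ) ^ (N ^ d) < S.card → GoodF S := by
  classical
  by_contra hcon
  push Not at hcon
  -- the bad families
  set B : Set ℕ := {N | ∃ S : Finset (Finset (Fin d → Fin N)),
    δ * (2 : ℝ) ^ (N ^ d) < S.card ∧ ¬ GoodF S} with hB
  have hfreq : ∃ᶠ N in (atTop : Filter ℕ), N ∈ B := by
    rw [frequently_atTop]
    intro N₀
    obtain ⟨N, hN, S, hS, hg⟩ := hcon N₀
    exact ⟨N, hN, S, hS, hg⟩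
  have hne : NeBot ((atTop : Filter ℕ) ⊓ 𝓟 B) := frequently_mem_iff_neBot.1 hfreq
  set V : Ultrafilter ℕ := Ultrafilter.of ((atTop : Filter ℕ) ⊓ 𝓟 B) with hVdef
  have hVle : (V : Filter ℕ) ≤ (atTop : Filter ℕ) ⊓ 𝓟 B := Ultrafilter.of_le _
  have hV1 : (V : Filter ℕ) ≤ atTop := hVle.trans inf_le_left
  have hV2 : B ∈ (V : Filter ℕ) := hVle (mem_inf_of_right (mem_principal_self B))
  -- choose the families
  have hch : ∀ N : ℕ, ∃ S : Finset (Finset (Fin d → Fin N)), ¬ GoodF S ∧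
      (N ∈ B → δ * (2 : ℝ) ^ (N ^ d) < S.card) := by
    intro N
    by_cases hN : N ∈ B
    · obtain ⟨S, hS, hg⟩ := hN
      exact ⟨S, hg, fun _ => hS⟩
    · refine ⟨∅, ?_, fun h => (hN h).elim⟩
      rintro ⟨A, hA, -⟩
      exact absurd hA (notMem_empty _)
  choose S hSg hSd using hch
  -- the density
  set a : ℕ → ℝ := fun N => av (fun A => ind (S N) A) with ha
  have hab : ∀ N, |a N| ≤ 1 := fun N => av_abs_le zero_le_one fun A => ind_abs _ _
  have hD := ulim_tendsto (V := V) (a := a) ⟨1, hab⟩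
  set D := ulim V a with hDdef
  have hδ0 : 0 < δ := by
    refine lt_of_le_of_lt ?_ hδ
    refine div_nonneg ?_ ?_
    · have : (1 : ℝ) ≤ 2 ^ (d - 1) := one_le_pow₀ (by norm_num)
      linarith
    · have : (1 : ℝ) ≤ 2 ^ d := one_le_pow₀ (by norm_num)
      linarith
  have hDδ : δ ≤ D := by
    refine ge_of_tendsto hD ?_
    filter_upwards [hV2] with N hN
    rw [ha]
    simp only
    rw [av_ind]
    have h1 : ((Fintype.card (Finset (Fin d → Fin N)) : ℕ) : ℝ) = 2 ^ (N ^ d) := by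
      rw [Fintype.card_finset]
      simp
    rw [h1, le_div_iff₀ (by positivity)]
    exact (hSd N hN).le
  have hD1 : D ≤ 1 := le_of_tendsto' hD fun N => (abs_le.1 (hab N)).2
  have := limit_le hd V hV1 S (fun N s φ A => not_good_ow (hSg N) φ A) D
    (lt_of_lt_of_le hδ0 hDδ) hD1 hD
  linarith

/-- structured families -/
def StructuredF (D k r : ℕ) (G : Type) [AddCommGroup G] {d N : ℕ}
    (F : Finset (Finset (Fin d → Fin N))) : Prop :=
  ∃ (h : Fin r → Finset (Fin d → Fin N) → ℝ) (c : Finset (Fin d → Fin N) → G)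
    (R : (Fin r → Prop) → G → Prop),
    (∀ i, ∃ j, 1 ≤ j ∧ j ≤ k ∧ Reg j (h i)) ∧
    (∀ T, c T ≠ 0 → ∀ x ∈ T, ∀ y ∈ T, ∃ i j, x i = y j) ∧
    ∀ A, A ∈ F ↔ R (fun i => 0 < h i A) (poly D c A)

lemma structured_compl {D k r : ℕ} {G : Type} [AddCommGroup G] {d N : ℕ}
    {F : Finset (Finset (Fin d → Fin N))} (hF : StructuredF D k r G F) :
    StructuredF D k r G Fᶜ := by
  obtain ⟨h, c, R, h1, h2, h3⟩ := hF
  refine ⟨h, c, fun a g => ¬ R a g, h1, h2, fun A => ?_⟩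
  rw [mem_compl, h3]

theorem crit (d : ℕ) (hd : 1 ≤ d) : ∃ θd : ℝ, 0 ≤ θd ∧
    θd ≤ ((2 : ℝ) ^ (d - 1) - 1) / (2 ^ d - 1) ∧
    ∀ (D k r : ℕ) (G : Type) [AddCommGroup G] [Finite G],
      (∀ θ δ : ℝ, θd < θ → 0 < δ → ∃ N₀ : ℕ, ∀ N : ℕ, N₀ ≤ N →
        ∀ F S : Finset (Finset (Fin d → Fin N)), StructuredF D k r G F →
          δ * (2 : ℝ) ^ (N ^ d) ≤ F.card → θ * F.card ≤ (F ∩ S).card → GoodF S) ∧
      (∀ ε : ℝ, 0 < ε → ∃ N₀ : ℕ, ∀ N : ℕ, N₀ ≤ N →
        ∃ S : Finset (Finset (Fin d → Fin N)), ¬ GoodF S ∧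
          ∀ F : Finset (Finset (Fin d → Fin N)), StructuredF D k r G F →
            |((F ∩ S).card : ℝ) - θd * F.card| ≤ ε * (2 : ℝ) ^ (N ^ d)) := by
  classical
  obtain ⟨t, ht⟩ : ∃ t : ℝ, t = ((2 : ℝ) ^ (d - 1) - 1) / (2 ^ d - 1) := ⟨_, rfl⟩
  have ht0 : 0 ≤ t := by
    rw [ht]
    refine div_nonneg ?_ ?_
    · have : (1 : ℝ) ≤ 2 ^ (d - 1) := one_le_pow₀ (by norm_num)
      linarith
    · have : (1 : ℝ) ≤ 2 ^ d := one_le_pow₀ (by norm_num)
      linarith
  obtain ⟨Ω, hΩ⟩ : ∃ Ω : Set ℝ, Ω = {θ' | 0 ≤ θ' ∧ ∃ m : ℕ, 1 ≤ m ∧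
      ∀ S : Finset (Finset (Fin d → Fin m)), θ' * (2 : ℝ) ^ (m ^ d) < S.card → GoodF S} :=
    ⟨_, rfl⟩
  have hΩm : ∀ θ', t < θ' → θ' ∈ Ω := by
    intro θ' hθ'
    rw [ht] at hθ'
    obtain ⟨N₀, hN₀⟩ := vec d hd θ' hθ'
    rw [hΩ]
    refine ⟨?_, max N₀ 1, le_max_right _ _, hN₀ _ (le_max_left _ _)⟩
    rw [← ht] at hθ'
    linarith
  have hbdd : BddBelow Ω := ⟨0, fun x hx => by
    rw [hΩ] at hx
    exact hx.1⟩
  have hne : Ω.Nonempty := ⟨t + 1, hΩm _ (by linarith)⟩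
  obtain ⟨θd, hθd⟩ : ∃ θd : ℝ, θd = sInf Ω := ⟨_, rfl⟩
  have h0 : 0 ≤ θd := by
    rw [hθd]
    refine le_csInf hne fun x hx => ?_
    rw [hΩ] at hx
    exact hx.1
  have hle : θd ≤ t := by
    refine le_of_forall_gt_imp_ge_of_dense fun x hx => ?_
    rw [hθd]
    exact csInf_le hbdd (hΩm x hx)
  rw [← ht]
  refine ⟨θd, h0, hle, fun D k r G _ _ => ?_⟩
  have hA : ∀ θ δ : ℝ, θd < θ → 0 < δ → ∃ N₀ : ℕ, ∀ N : ℕ, N₀ ≤ N →
        ∀ F S : Finset (Finset (Fin d → Fin N)), StructuredF D k r G F →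
          δ * (2 : ℝ) ^ (N ^ d) ≤ F.card → θ * F.card ≤ (F ∩ S).card → GoodF S := by
    intro θ δ hθ hδ
    rw [hθd] at hθ
    obtain ⟨θ', hθ'Ω, hθ'⟩ := exists_lt_of_csInf_lt hne hθ
    rw [hΩ] at hθ'Ω
    obtain ⟨h1, m, hm, h2⟩ := hθ'Ω
    obtain ⟨N₀, hN₀⟩ := relmain d hd θ θ' h1 hθ' m hm h2 D k r G δ hδ
    refine ⟨N₀, fun N hN F S hF hFc hFS => ?_⟩
    obtain ⟨h, c, R, h3, h4, h5⟩ := hF
    exact hN₀ N hN h c R F S h3 h4 h5 hFc hFS
  refine ⟨hA, fun ε hε => ?_⟩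
  obtain ⟨κ, hκ⟩ : ∃ κ : ℝ, κ = ε / 2 := ⟨_, rfl⟩
  have hκ0 : 0 < κ := by rw [hκ]; linarith
  have hempty : ∀ N : ℕ, ¬ GoodF (∅ : Finset (Finset (Fin d → Fin N))) := by
    rintro N ⟨A, hA, -⟩
    exact absurd hA (notMem_empty _)
  have hFW : ∀ (N : ℕ) (F : Finset (Finset (Fin d → Fin N))),
      (F.card : ℝ) ≤ (2 : ℝ) ^ (N ^ d) := by
    intro N F
    have h1 : F.card ≤ Fintype.card (Finset (Fin d → Fin N)) := card_le_univ F
    rw [Fintype.card_finset] at h1
    have h2 : ((2 ^ Fintype.card (Fin d → Fin N) : ℕ) : ℝ) = (2 : ℝ) ^ (N ^ d) := by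
      push_cast
      simp
    rw [← h2]
    exact_mod_cast h1
  by_cases hcase : θd - κ < 0
  · refine ⟨0, fun N _ => ⟨∅, hempty N, fun F _ => ?_⟩⟩
    rw [inter_empty, card_empty, Nat.cast_zero, zero_sub, abs_neg, abs_of_nonneg (by positivity)]
    have hW : (0 : ℝ) < 2 ^ (N ^ d) := by positivity
    calc θd * F.card ≤ θd * 2 ^ (N ^ d) := mul_le_mul_of_nonneg_left (hFW N F) h0
      _ ≤ ε * 2 ^ (N ^ d) := mul_le_mul_of_nonneg_right (by linarith) hW.le
  · push Not at hcase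
    have hnot : θd - κ ∉ Ω := by
      intro h
      have := csInf_le hbdd h
      rw [← hθd] at this
      linarith
    obtain ⟨N₀, hN₀⟩ := hA (θd + κ) κ (by linarith) hκ0
    refine ⟨max N₀ 1, fun N hN => ?_⟩
    obtain ⟨W, hW⟩ : ∃ W : ℝ, W = (2 : ℝ) ^ (N ^ d) := ⟨_, rfl⟩
    have hW0 : 0 < W := by rw [hW]; positivity
    have hex : ∃ S : Finset (Finset (Fin d → Fin N)), (θd - κ) * W < S.card ∧ ¬ GoodF S := by
      by_contra hcon
      push Not at hcon
      apply hnot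
      rw [hΩ]
      refine ⟨hcase, N, (le_max_right _ _).trans hN, fun S hS => ?_⟩
      rw [← hW] at hS
      exact hcon S hS
    obtain ⟨S, hSc, hSg⟩ := hex
    refine ⟨S, hSg, ?_⟩
    have hupper : ∀ F : Finset (Finset (Fin d → Fin N)), StructuredF D k r G F →
        ((F ∩ S).card : ℝ) ≤ θd * F.card + κ * W := by
      intro F hF
      have hFle : (F.card : ℝ) ≤ W := by rw [hW]; exact hFW N F
      have hnn : (0 : ℝ) ≤ F.card := Nat.cast_nonneg _
      by_cases h1 : κ * W ≤ F.card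
      · by_contra hcon
        push Not at hcon
        refine hSg (hN₀ N ((le_max_left _ _).trans hN) F S hF (by rw [← hW]; exact h1) ?_)
        have : κ * F.card ≤ κ * W := mul_le_mul_of_nonneg_left hFle hκ0.le
        nlinarith
      · push Not at h1
        have h2 : ((F ∩ S).card : ℝ) ≤ F.card := by
          exact_mod_cast card_le_card inter_subset_left
        have h3 : 0 ≤ θd * F.card := by positivity
        linarith
    intro F hF
    rw [← hW]
    have h1 := hupper F hF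
    have h2 := hupper Fᶜ (structured_compl hF)
    have h3 : ((F ∩ S).card : ℝ) + (Fᶜ ∩ S).card = S.card := by
      have h4 : (F ∩ S).card + (Fᶜ ∩ S).card = S.card := by
        rw [← card_union_of_disjoint, ← union_inter_distrib_right, union_compl, univ_inter]
        rw [Finset.disjoint_left]
        intro x hx hx'
        exact (mem_compl.1 (mem_inter.1 hx').1) (mem_inter.1 hx).1
      exact_mod_cast h4
    have h5 : (F.card : ℝ) + (Fᶜ).card = W := by
      have h6 : F.card + (Fᶜ).card = Fintype.card (Finset (Fin d → Fin N)) :=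
        card_add_card_compl F
      rw [Fintype.card_finset] at h6
      rw [hW]
      have h7 : ((2 ^ Fintype.card (Fin d → Fin N) : ℕ) : ℝ) = (2 : ℝ) ^ (N ^ d) := by
        push_cast
        simp
      rw [← h7, ← h6]
      push_cast
      rfl
    have h8 : θd * F.card + θd * (Fᶜ).card = θd * W := by rw [← h5]; ring
    rw [abs_le]
    constructor
    · have : ε * W = κ * W + κ * W := by rw [hκ]; ring
      linarith
    · have : ε * W = κ * W + κ * W := by rw [hκ]; ring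
      have h9 : 0 < κ * W := by positivity
      linarith

end Pool.Agent.TH484.PH
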