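import Mathlib
import Pool.Agent.TH484.PH.Crit
import Pool.Agent.TH484.GC.Code

set_option autoImplicit false

/-!
Families of graphs: two members which differ by a clique that is added.
-/

namespace Pool.Agent.TH484.PH

open Finset Pool.Agent.H720R3 Pool.Agent.TH484.GC

/-- the two vertices of a pair -/
def vert {N : ℕ} (p : Pr N) : Fin 2 → Fin N := ![p.1.1, p.1.2]

/-- the copy of a set of cells of `[m]^2` -/
def patG {N m : ℕ} (T : Finset (Fin N)) (π : Fin N → Fin m) (B : Finset (Fin 2 → Fin m)) :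
    Finset (Pr N) := univ.filter (fun p => (∀ i, vert p i ∈ T) ∧ (fun i => π (vert p i)) ∈ B)

lemma mem_patG {N m : ℕ} {T : Finset (Fin N)} {π : Fin N → Fin m} {B : Finset (Fin 2 → Fin m)}
    {p : Pr N} : p ∈ patG T π B ↔ (∀ i, vert p i ∈ T) ∧ (fun i => π (vert p i)) ∈ B := by
  rw [patG, mem_filter]
  exact ⟨fun h => h.2, fun h => ⟨mem_univ _, h⟩⟩

lemma mem_KK {N : ℕ} {U : Finset (Fin N)} {p : Pr N} : p ∈ KK U ↔ ∀ i, vert p i ∈ U := by
  unfold KK
  rw [mem_filter, Fin.forall_fin_two]
  exact ⟨fun h => h.2, fun h => ⟨mem_univ _, h⟩⟩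

/-- a clique is added to a member of the family -/
def GoodG {N : ℕ} (S : Finset (Finset (Pr N))) : Prop :=
  ∃ A ∈ S, ∃ U : Finset (Fin N), 2 ≤ U.card ∧ Disjoint A (KK U) ∧ A ∪ KK U ∈ S

/-- simultaneous returns -/
lemma polyretG (D m : ℕ) (hm : 1 ≤ m) (G : Type) [AddCommGroup G] [Fintype G] :
    ∃ n : ℕ, 2 ≤ n ∧ ∀ (N : ℕ) (c : Finset (Pr N) → G) (T : Finset (Fin N))
      (Z : Finset (Pr N)), n ≤ T.card →
      ∃ T' ⊆ T, ∃ π : Fin N → Fin m, (∀ a, 2 ≤ (T'.filter (fun x => π x = a)).card) ∧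
        ∀ B : Finset (Fin 2 → Fin m), poly D c (Z ∪ patG T' π B) = poly D c Z := by
  classical
  obtain ⟨r, hr⟩ := exists_return (2 * D) (Finset (Fin 2 → Fin m) → G)
  refine ⟨m * 2 * (r + 1) + 2, by omega, fun N c T Z hT => ?_⟩
  have hcard : Fintype.card ((Fin m × Fin 2) × Fin (r + 1)) ≤ Fintype.card T := by
    rw [Fintype.card_prod, Fintype.card_prod, Fintype.card_fin, Fintype.card_fin, Fintype.card_fin,
      Fintype.card_coe]
    omega
  obtain ⟨φ⟩ := Function.Embedding.nonempty_of_card_le hcard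
  have hφ : ∀ p q : (Fin m × Fin 2) × Fin (r + 1), ((φ p : Fin N) = φ q) → p = q := fun p q h =>
    φ.injective (Subtype.ext h)
  -- the inverse
  obtain ⟨inv, hinv⟩ : ∃ inv : Fin N → (Fin m × Fin 2) × Fin (r + 1),
      ∀ p : (Fin m × Fin 2) × Fin (r + 1), inv (φ p : Fin N) = p := by
    refine ⟨fun x => if h : ∃ p : (Fin m × Fin 2) × Fin (r + 1), (φ p : Fin N) = x then
      Classical.choose h else ((⟨0, hm⟩, 0), 0), fun p => ?_⟩
    have h : ∃ q : (Fin m × Fin 2) × Fin (r + 1), (φ q : Fin N) = (φ p : Fin N) := ⟨p, rfl⟩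
    show (if h : ∃ q : (Fin m × Fin 2) × Fin (r + 1), (φ q : Fin N) = (φ p : Fin N) then
      Classical.choose h else ((⟨0, hm⟩, 0), 0)) = p
    rw [dif_pos h]
    exact hφ _ _ (Classical.choose_spec h)
  obtain ⟨π, hπ⟩ : ∃ π : Fin N → Fin m, π = fun x => (inv x).1.1 := ⟨_, rfl⟩
  obtain ⟨ρ, hρ⟩ : ∃ ρ : Fin N → Fin (r + 1), ρ = fun x => (inv x).2 := ⟨_, rfl⟩
  obtain ⟨V, hV⟩ : ∃ V : Finset (Fin (r + 1)) → Finset (Fin N), V = fun g =>
      (univ ×ˢ g).image (fun p : (Fin m × Fin 2) × Fin (r + 1) => (φ p : Fin N)) := ⟨_, rfl⟩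
  have hmemV : ∀ (g : Finset (Fin (r + 1))) (x : Fin N), x ∈ V g ↔ x ∈ V univ ∧ ρ x ∈ g := by
    intro g x
    rw [hV, hρ]
    simp only [mem_image, mem_product, mem_univ, true_and]
    constructor
    · rintro ⟨p, hp, rfl⟩
      refine ⟨⟨p, rfl⟩, ?_⟩
      rw [hinv]
      exact hp
    · rintro ⟨⟨p, rfl⟩, h⟩
      rw [hinv] at h
      exact ⟨p, h, rfl⟩
  obtain ⟨ψ, hψ⟩ : ∃ ψ : Finset (Fin (r + 1)) → (Finset (Fin 2 → Fin m) → G), ψ = fun g B =>
      poly D c (Z ∪ patG (V g) π B) := ⟨_, rfl⟩
  obtain ⟨g, -, hgne, hg⟩ := hr (Fin (r + 1)) univ ψ (by rw [card_univ, Fintype.card_fin]; omega)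
    (by
      refine deg_of_sum (univ.filter fun X : Finset (Pr N) => X.card ≤ D)
        (fun X => (X \ Z).biUnion fun x => univ.image fun i => ρ (vert x i))
        (fun X B => if X \ Z ⊆ patG (V univ) π B then c X else 0) ?_ ψ univ ?_
      · intro X hX
        rw [mem_filter] at hX
        calc ((X \ Z).biUnion fun x => univ.image fun i => ρ (vert x i)).card
            ≤ ∑ x ∈ X \ Z, (univ.image fun i => ρ (vert x i)).card := card_biUnion_le
          _ ≤ ∑ _x ∈ X \ Z, 2 := sum_le_sum fun x _ => by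
              calc (univ.image fun i => ρ (vert x i)).card ≤ (univ : Finset (Fin 2)).card :=
                    card_image_le
                _ = 2 := by simp
          _ = (X \ Z).card * 2 := by rw [sum_const, smul_eq_mul]
          _ ≤ D * 2 := Nat.mul_le_mul_right 2 ((card_le_card sdiff_subset).trans hX.2)
          _ = 2 * D := mul_comm _ _
      · intro g _
        funext B
        rw [hψ]
        simp only
        rw [Finset.sum_apply, poly]
        have h1 : ∀ X ∈ univ.filter (fun X : Finset (Pr N) => X.card ≤ D),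
            (if ((X \ Z).biUnion fun x => univ.image fun i => ρ (vert x i)) ⊆ g then
              (fun B : Finset (Fin 2 → Fin m) => if X \ Z ⊆ patG (V univ) π B then c X else 0)
              else 0) B =
            if ((X \ Z).biUnion fun x => univ.image fun i => ρ (vert x i)) ⊆ g ∧
              X \ Z ⊆ patG (V univ) π B then c X else 0 := by
          intro X _
          by_cases h2 : ((X \ Z).biUnion fun x => univ.image fun i => ρ (vert x i)) ⊆ g
          · rw [if_pos h2]
            by_cases h3 : X \ Z ⊆ patG (V univ) π B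
            · rw [if_pos h3, if_pos ⟨h2, h3⟩]
            · rw [if_neg h3, if_neg fun h => h3 h.2]
          · rw [if_neg h2, if_neg fun h => h2 h.1]
            rfl
        rw [sum_congr rfl h1, ← sum_filter]
        refine sum_congr ?_ fun _ _ => rfl
        ext X
        rw [mem_filter, mem_filter, mem_filter, mem_powerset]
        have hiff : X ⊆ Z ∪ patG (V g) π B ↔
            ((X \ Z).biUnion fun x => univ.image fun i => ρ (vert x i)) ⊆ g ∧
              X \ Z ⊆ patG (V univ) π B := by
          constructor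
          · intro h
            have h2 : ∀ x ∈ X \ Z, x ∈ patG (V g) π B := fun x hx =>
              (mem_union.1 (h (mem_sdiff.1 hx).1)).resolve_left (mem_sdiff.1 hx).2
            constructor
            · intro y hy
              rw [mem_biUnion] at hy
              obtain ⟨x, hx, hy⟩ := hy
              rw [mem_image] at hy
              obtain ⟨i, -, rfl⟩ := hy
              exact ((hmemV g (vert x i)).1 ((mem_patG.1 (h2 x hx)).1 i)).2
            · intro x hx
              have h3 := mem_patG.1 (h2 x hx)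
              exact mem_patG.2 ⟨fun i => ((hmemV g (vert x i)).1 (h3.1 i)).1, h3.2⟩
          · rintro ⟨h2, h3⟩ x hx
            by_cases hxZ : x ∈ Z
            · exact mem_union_left _ hxZ
            · have h4 : x ∈ X \ Z := mem_sdiff.2 ⟨hx, hxZ⟩
              have h5 := mem_patG.1 (h3 h4)
              refine mem_union_right _ (mem_patG.2 ⟨fun i => ?_, h5.2⟩)
              rw [hmemV]
              refine ⟨h5.1 i, h2 ?_⟩
              rw [mem_biUnion]
              exact ⟨x, h4, mem_image_of_mem (fun i => ρ (vert x i)) (mem_univ i)⟩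
        rw [hiff]
        simp only [mem_univ, true_and]
        exact and_comm)
  refine ⟨V g, ?_, π, ?_, ?_⟩
  · intro x hx
    rw [hV, mem_image] at hx
    obtain ⟨p, -, rfl⟩ := hx
    exact (φ p).2
  · intro a
    obtain ⟨i, hi⟩ := hgne
    have h1 : ∀ t : Fin 2, (φ ((a, t), i) : Fin N) ∈ (V g).filter (fun x => π x = a) := by
      intro t
      rw [mem_filter]
      constructor
      · rw [hV, mem_image]
        exact ⟨((a, t), i), mem_product.2 ⟨mem_univ _, hi⟩, rfl⟩
      · rw [hπ]
        show (inv (φ ((a, t), i) : Fin N)).1.1 = a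
        rw [hinv]
    have h2 : 1 < ((V g).filter (fun x => π x = a)).card := by
      rw [one_lt_card]
      refine ⟨_, h1 0, _, h1 1, fun h => ?_⟩
      have := hφ _ _ h
      simp at this
    exact h2
  · intro B
    have h1 : patG (V ∅) π B = (∅ : Finset (Pr N)) := by
      ext x
      rw [mem_patG]
      constructor
      · rintro ⟨h2, -⟩
        have h3 := h2 0
        rw [hmemV] at h3
        exact absurd h3.2 (notMem_empty _)
      · intro h
        exact absurd h (notMem_empty _)
    have h2 : ψ g B = ψ ∅ B := by rw [hg]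
    rw [hψ] at h2
    simp only at h2
    rw [h2, h1, union_empty]

/-- goodness is inherited from the patterns -/
lemma transferG {N m : ℕ} {T : Finset (Fin N)} {π : Fin N → Fin m}
    (hπ : ∀ a, 2 ≤ (T.filter (fun x => π x = a)).card) (S : Finset (Finset (Pr N)))
    (R : Finset (Pr N)) (hR : Disjoint R (KK T))
    (𝒮 : Finset (Finset (Fin 2 → Fin m))) (h𝒮 : ∀ B ∈ 𝒮, R ∪ patG T π B ∈ S) (hg : GoodF 𝒮) :
    GoodG S := by
  classical
  obtain ⟨B, hB, β, hβ, hdis, hBβ⟩ := hg
  have h1 : KK (T.filter (fun x => π x ∈ β)) = patG T π (pw 2 β) := by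
    ext x
    rw [mem_patG, mem_KK, mem_pw]
    constructor
    · intro h
      exact ⟨fun i => (mem_filter.1 (h i)).1, fun i => (mem_filter.1 (h i)).2⟩
    · rintro ⟨h2, h3⟩ i
      exact mem_filter.2 ⟨h2 i, h3 i⟩
  refine ⟨R ∪ patG T π B, h𝒮 B hB, T.filter (fun x => π x ∈ β), ?_, ?_, ?_⟩
  · obtain ⟨b, hb⟩ := hβ
    refine (hπ b).trans (card_le_card fun x hx => ?_)
    rw [mem_filter] at hx ⊢
    exact ⟨hx.1, hx.2 ▸ hb⟩
  · rw [h1, disjoint_union_left]
    constructor
    · refine Finset.disjoint_of_subset_right (fun x hx => ?_) hR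
      rw [mem_KK]
      exact (mem_patG.1 hx).1
    · rw [Finset.disjoint_left]
      intro x hx hx'
      exact (Finset.disjoint_left.1 hdis) (mem_patG.1 hx).2 (mem_patG.1 hx').2
  · have h2 : R ∪ patG T π B ∪ KK (T.filter (fun x => π x ∈ β)) =
        R ∪ patG T π (B ∪ pw 2 β) := by
      rw [h1, union_assoc]
      congr 1
      ext x
      simp only [mem_patG, mem_union]
      tauto
    rw [h2]
    exact h𝒮 _ hBβ

lemma card_KK_T {M n N : ℕ} (h : M * n ≤ N) (j : Fin M) :
    (KK (T h j)).card = n.choose 2 := by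
  have hlt : ∀ a b : Fin n, a < b → e h j a < e h j b := by
    intro a b hab
    show (j : ℕ) * n + a < j * n + b
    have : (a : ℕ) < b := hab
    omega
  have h1 : KK (T h j) = univ.image (fun p : Pr n =>
      (⟨(e h j p.1.1, e h j p.1.2), hlt _ _ p.2⟩ : Pr N)) := by
    ext x
    rw [mem_KK, Fin.forall_fin_two, mem_image]
    constructor
    · rintro ⟨h2, h3⟩
      have h2' : x.1.1 ∈ T h j := h2
      have h3' : x.1.2 ∈ T h j := h3
      rw [T, mem_image] at h2' h3'
      obtain ⟨a, -, ha⟩ := h2'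
      obtain ⟨b, -, hb⟩ := h3'
      have hab : a < b := by
        by_contra hcon
        have hx := x.2
        rw [← ha, ← hb] at hx
        rcases lt_or_eq_of_le (not_lt.1 hcon) with h4 | h4
        · exact absurd (hlt _ _ h4) (not_lt.2 hx.le)
        · rw [h4] at hx
          exact lt_irrefl _ hx
      refine ⟨⟨(a, b), hab⟩, mem_univ _, ?_⟩
      apply Subtype.ext
      exact Prod.ext ha hb
    · rintro ⟨p, -, rfl⟩
      exact ⟨mem_image_of_mem _ (mem_univ _), mem_image_of_mem _ (mem_univ _)⟩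
  rw [h1, card_image_of_injective, card_univ, card_Pr]
  intro p q hpq
  have h2 := congrArg (fun z : Pr N => z.1) hpq
  simp only [Prod.mk.injEq] at h2
  apply Subtype.ext
  exact Prod.ext (e_inj h h2.1).2 (e_inj h h2.2).2

lemma KK_T_disj {M n N : ℕ} (h : M * n ≤ N) (j k : Fin M) (hjk : j ≠ k) :
    Disjoint (KK (T h j)) (KK (T h k)) := by
  rw [Finset.disjoint_left]
  intro x hx hx'
  rw [mem_KK] at hx hx'
  exact (Finset.disjoint_left.1 (T_disj h hjk)) (hx 0) (hx' 0)

end Pool.Agent.TH484.PH
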